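import Pool.Agent.R664.GK.A4

/-!
# Task A: if the Bernoulli-Carlitz numbers vanish, there are two independent fixed vectors
-/

set_option autoImplicit false

open Polynomial
open Pool.Agent.R360.GK (U dth eser Qk)

namespace Pool.Agent.R664.GK

section Digits

theorem sum_digits (q d k : ℕ) : ∑ j ∈ Finset.range d, (k / q ^ j % q) * q ^ j = k % q ^ d := by
  induction d with
  | zero => simp [Nat.mod_one]
  | succ d ih => rw [Finset.sum_range_succ, ih, Nat.mod_pow_succ, mul_comm]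

theorem geom_nat (q d : ℕ) (hq : 2 ≤ q) : ∑ j ∈ Finset.range d, (q - 1) * q ^ j = q ^ d - 1 := by
  induction d with
  | zero => simp
  | succ d ih =>
    rw [Finset.sum_range_succ, ih]
    obtain ⟨e, he⟩ : ∃ e, q ^ d = e + 1 := ⟨q ^ d - 1, by
      have : 1 ≤ q ^ d := Nat.one_le_pow _ _ (by omega)
      omega⟩
    obtain ⟨f, rfl⟩ : ∃ f, q = f + 1 := ⟨q - 1, by omega⟩
    rw [pow_succ, he, Nat.add_sub_cancel, Nat.add_sub_cancel]
    have : (e + 1) * (f + 1) = e + f * (e + 1) + 1 := by ring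
    rw [this, Nat.add_sub_cancel]

theorem sum_co_digits (q d k : ℕ) (hq : 2 ≤ q) (hk : k < q ^ d) :
    ∑ j ∈ Finset.range d, (q - 1 - k / q ^ j % q) * q ^ j = q ^ d - 1 - k := by
  have h1 : ∀ j ∈ Finset.range d, (q - 1 - k / q ^ j % q) * q ^ j + (k / q ^ j % q) * q ^ j =
      (q - 1) * q ^ j := by
    intro j _
    rw [← add_mul, Nat.sub_add_cancel]
    have := Nat.mod_lt (k / q ^ j) (show 0 < q by omega)
    omega
  have h2 : ∑ j ∈ Finset.range d, (q - 1) * q ^ j = q ^ d - 1 := geom_nat q d hq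
  have h3 := Finset.sum_congr rfl h1
  rw [Finset.sum_add_distrib, sum_digits, Nat.mod_eq_of_lt hk, h2] at h3
  omega

theorem dvd_sum_sub (q d : ℕ) (hq : 2 ≤ q) (t : ℕ → ℕ)
    (h : (q - 1) ∣ ∑ j ∈ Finset.range d, t j * q ^ j) : (q - 1) ∣ ∑ j ∈ Finset.range d, t j := by
  have h1 : ∑ j ∈ Finset.range d, t j * q ^ j =
      ∑ j ∈ Finset.range d, t j * (q ^ j - 1) + ∑ j ∈ Finset.range d, t j := by
    rw [← Finset.sum_add_distrib]
    refine Finset.sum_congr rfl fun j _ => ?_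
    have : 1 ≤ q ^ j := Nat.one_le_pow _ _ (by omega)
    obtain ⟨e, he⟩ : ∃ e, q ^ j = e + 1 := ⟨q ^ j - 1, by omega⟩
    rw [he, Nat.add_sub_cancel]
    ring
  rw [h1] at h
  refine (Nat.dvd_add_right ?_).1 h
  refine Finset.dvd_sum fun j _ => Dvd.dvd.mul_left ?_ _
  have := Nat.sub_dvd_pow_sub_pow q 1 j
  rwa [one_pow] at this

/-- the digits of `q k mod (q ^ d - 1)` -/
theorem rot_eq (q e k : ℕ) (hq : 2 ≤ q) (hk : k < q ^ (e + 1) - 1) :
    (q * k) % (q ^ (e + 1) - 1) = k / q ^ e + q * (k % q ^ e) := by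
  have hpe : 1 ≤ q ^ e := Nat.one_le_pow _ _ (by omega)
  have h0 : q ^ (e + 1) = q * q ^ e := pow_succ' q e
  have h1 : q ^ e * (k / q ^ e) + k % q ^ e = k := Nat.div_add_mod k (q ^ e)
  have h2 : k % q ^ e < q ^ e := Nat.mod_lt _ (by omega)
  have h3 : k / q ^ e < q := by
    rw [Nat.div_lt_iff_lt_mul (by omega), ← h0]
    omega
  set a := k / q ^ e with ha
  set b := k % q ^ e with hb
  have h4 : a + q * b < q ^ (e + 1) - 1 := by
    rw [h0] at hk ⊢
    obtain ⟨c, hc⟩ : ∃ c, q ^ e = b + 1 + c := ⟨q ^ e - b - 1, by omega⟩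
    obtain ⟨f, hf⟩ : ∃ f, q = a + 1 + f := ⟨q - a - 1, by omega⟩
    have h5 : q * q ^ e = q * b + q + q * c := by rw [hc]; ring
    rcases Nat.eq_zero_or_pos c with hc0 | hc0
    · rcases Nat.eq_zero_or_pos f with hf0 | hf0
      · exfalso
        subst hc0 hf0
        simp only [add_zero] at hc hf
        have h6 : q * q ^ e = (a + 1) * q ^ e := by rw [← hf]
        have h7 : (a + 1) * q ^ e = q ^ e * a + q ^ e := by ring
        omega
      · subst hc0
        simp only [mul_zero, add_zero] at h5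
        omega
    · have : q ≤ q * c := Nat.le_mul_of_pos_right _ hc0
      omega
  have h5 : q * k = (q ^ (e + 1) - 1) * a + (a + q * b) := by
    have h6 : 1 ≤ q ^ (e + 1) := Nat.one_le_pow _ _ (by omega)
    have h7 : q * k = q ^ (e + 1) * a + q * b := by
      rw [h0]; conv_lhs => rw [← h1]
      ring
    obtain ⟨g, hg⟩ : ∃ g, q ^ (e + 1) = g + 1 := ⟨q ^ (e + 1) - 1, by omega⟩
    rw [h7, hg, Nat.add_sub_cancel]
    ring
  rw [h5, Nat.mul_add_mod, Nat.mod_eq_of_lt h4]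

end Digits

section Final

variable {κ : Type} [Field κ] {q d : ℕ} {θ : κ} {p s : ℕ} [Fact p.Prime] [CharP κ p]

theorem one_step (hqs : q = p ^ s) (hq : 0 < q) (hq2 : 2 ≤ q) (hd : 0 < d)
    (hθ : θ ^ q ^ d = θ) (hne : ∀ i, 0 < i → i < d → θ ^ q ^ i ≠ θ) (k : ℕ)
    (hk : k < q ^ d - 1) (hdvd : (q - 1) ∣ k)
    (hβ : PowerSeries.coeff k (eser q d θ)⁻¹ = 0) :
    ∃ f : κ[X], f ≠ 0 ∧ f ∈ degreeLT κ d ∧ f.eval θ = 0 ∧ U q (Qk q d k θ * f) = f := by
  let t : ℕ → ℕ := fun j => q - 1 - k / q ^ j % q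
  have hQ : Qk q d k θ = Pm q d θ t := rfl
  have hNt : Nm q d t = q ^ d - 1 - k := sum_co_digits q d k hq2 (by omega)
  have hdvd1 : (q - 1) ∣ q ^ d - 1 := by
    have := Nat.sub_dvd_pow_sub_pow q 1 d
    rwa [one_pow] at this
  have hdvd2 : (q - 1) ∣ Sm d t := dvd_sum_sub q d hq2 t (by
    have h1 : ∑ j ∈ Finset.range d, t j * q ^ j = q ^ d - 1 - k := hNt
    rw [h1]
    exact Nat.dvd_sub hdvd1 hdvd)
  obtain ⟨D, hD⟩ := hdvd2
  have hD0 : 0 < D := by
    rcases Nat.eq_zero_or_pos D with rfl | h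
    · exfalso
      rw [mul_zero, Sm, Finset.sum_eq_zero_iff] at hD
      have h1 : Nm q d t = 0 := Finset.sum_eq_zero fun j hj => by rw [hD j hj, zero_mul]
      omega
    · exact h
  obtain ⟨r, rfl⟩ : ∃ r, D = r + 1 := ⟨D - 1, by omega⟩
  have hDd : r + 1 ≤ d := by
    have h1 : Sm d t ≤ (q - 1) * d := by
      refine le_trans (Finset.sum_le_card_nsmul _ _ (q - 1) fun j _ => Nat.sub_le _ _) ?_
      rw [Finset.card_range, smul_eq_mul, mul_comm]
    rw [hD] at h1
    exact le_of_mul_le_mul_left h1 (by omega)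
  let m : ℕ → ℕ := t + sg 0 1
  have hSm : Sm d m = (q - 1) * (r + 1) + 1 := by
    rw [Sm_single t 1 hd, hD]
  have hNm : Nm q d m = q ^ d - k := by
    rw [Nm_single t 1 hd, hNt, pow_zero]
    omega
  have hPm : Pm q d θ m = (X - C θ) * Qk q d k θ := by
    rw [Pm_single t 1 hd, pow_one, th_zero, hQ]
  have hdet := main_induction (p := p) (s := s) hqs hq hq2 hd hθ hne
    (((q - 1) * d + 1) * q ^ d + 1) r m hSm hDd (by omega)
  have hG0 : GG q d θ m = 0 := by
    rw [GG, hNm, bt, if_pos (Nat.sub_le _ _)]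
    have : q ^ d - (q ^ d - k) = k := by omega
    rw [this, bb, hβ, mul_zero]
  rw [hG0] at hdet
  obtain ⟨u, hu0, hu, hUu⟩ := exists_ker hq θ (Pm q d θ m) (Pm_monic m) r
    (by rw [Pm_natDegree, hSm]) hdet
  refine ⟨(X - C θ) * u, mul_ne_zero (X_sub_C_ne_zero θ) hu0, ?_, by simp, ?_⟩
  · rw [mem_degreeLT] at hu ⊢
    rw [degree_mul, degree_X_sub_C]
    have h2 : (1 : WithBot ℕ) + u.degree < 1 + (r : WithBot ℕ) := by
      rw [degree_eq_natDegree hu0] at hu ⊢
      have h3 : u.natDegree < r := by exact_mod_cast hu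
      exact_mod_cast (by omega : 1 + u.natDegree < 1 + r)
    refine lt_of_lt_of_le h2 ?_
    exact_mod_cast (by omega : 1 + r ≤ d)
  · have h3 : Qk q d k θ * ((X - C θ) * u) = Pm q d θ m * u := by rw [hPm]; ring
    rw [h3, hUu]

theorem U_map (hq : 0 < q) (φ : κ →+* κ) (f : κ[X]) : U q (f.map φ) = (U q f).map φ := by
  ext n
  rw [coeff_U hq, coeff_map, coeff_map, coeff_U hq]

theorem Qk_rot (hqs : q = p ^ s) (hq2 : 2 ≤ q) (hd : 0 < d) (hθ : θ ^ q ^ d = θ) (k : ℕ)
    (hk : k < q ^ d - 1) :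
    Qk q d ((q * k) % (q ^ d - 1)) θ = (Qk q d k θ).map (iterateFrobenius κ p s) := by
  obtain ⟨e, rfl⟩ : ∃ e, d = e + 1 := ⟨d - 1, by omega⟩
  rw [rot_eq q e k hq2 hk]
  have hke : k / q ^ e < q := by
    rw [Nat.div_lt_iff_lt_mul (Nat.pos_of_ne_zero (by positivity)), ← pow_succ']
    omega
  rw [Qk, Qk, Polynomial.map_prod, Finset.prod_range_succ', Finset.prod_range_succ]
  congr 1
  · refine Finset.prod_congr rfl fun i hi => ?_
    have hi' := Finset.mem_range.1 hi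
    rw [Polynomial.map_pow, Polynomial.map_sub, map_X, map_C, iterateFrobenius_def, ← hqs,
      ← pow_mul, ← pow_succ]
    congr 2
    rw [pow_succ' q i, ← Nat.div_div_eq_div_mul, Nat.add_mul_div_left _ _ (by omega : 0 < q),
      Nat.div_eq_of_lt hke, zero_add, ← Nat.mod_mul_right_div_self, ← Nat.mod_mul_right_div_self]
    congr 1
    rw [← pow_succ]
    exact Nat.mod_mod_of_dvd _ (pow_dvd_pow q (by omega))
  · rw [Polynomial.map_pow, Polynomial.map_sub, map_X, map_C, iterateFrobenius_def, ← hqs,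
      ← pow_mul, ← pow_succ, hθ, pow_zero, pow_one, Nat.div_one, Nat.add_mul_mod_self_left]

theorem taskA_aux (hqs : q = p ^ s) (hq2 : 2 ≤ q) (hd : 0 < d)
    (hθ : θ ^ q ^ d = θ) (hne : ∀ i, 0 < i → i < d → θ ^ q ^ i ≠ θ) (k : ℕ)
    (hk : k < q ^ d - 1) (hdvd : (q - 1) ∣ k)
    (hβ : ∀ j < d, PowerSeries.coeff ((q ^ j * k) % (q ^ d - 1)) (eser q d θ)⁻¹ = 0) :
    ∃ f g : κ[X], LinearIndependent κ ![f, g] ∧ U q (Qk q d k θ * f) = f ∧
        U q (Qk q d k θ * g) = g := by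
  have hq : 0 < q := by omega
  let φ := iterateFrobenius κ p s
  let Φ : κ[X] → κ[X] := fun f => f.map φ
  have hφ : ∀ x, φ x = x ^ q := fun x => by rw [iterateFrobenius_def, hqs]
  have hdvd1 : (q - 1) ∣ q ^ d - 1 := by
    have := Nat.sub_dvd_pow_sub_pow q 1 d
    rwa [one_pow] at this
  have hpos : 0 < q ^ d - 1 := by omega
  -- the rotated exponents
  have hrot : ∀ j, Qk q d ((q ^ j * k) % (q ^ d - 1)) θ = Φ^[j] (Qk q d k θ) := by
    intro j
    induction j with
    | zero => rw [pow_zero, one_mul, Nat.mod_eq_of_lt hk]; rfl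
    | succ j ih =>
      rw [Function.iterate_succ_apply', ← ih]
      change _ = (Qk q d ((q ^ j * k) % (q ^ d - 1)) θ).map φ
      rw [← Qk_rot (p := p) (s := s) hqs hq2 hd hθ _ (Nat.mod_lt _ hpos)]
      congr 1
      rw [pow_succ', mul_assoc, Nat.mul_mod_mod]
  have hUΦ : ∀ (n : ℕ) (Q f : κ[X]), U q (Q * f) = f → U q (Φ^[n] Q * Φ^[n] f) = Φ^[n] f := by
    intro n Q f hf
    induction n with
    | zero => exact hf
    | succ n ih =>
      rw [Function.iterate_succ_apply', Function.iterate_succ_apply']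
      change U q ((Φ^[n] Q).map φ * (Φ^[n] f).map φ) = (Φ^[n] f).map φ
      rw [← Polynomial.map_mul, U_map hq, ih]
  have hev : ∀ (n : ℕ) (f : κ[X]), f.eval θ = 0 → (Φ^[n] f).eval (th q θ n) = 0 := by
    intro n f hf
    induction n with
    | zero => rw [th_zero]; exact hf
    | succ n ih =>
      rw [Function.iterate_succ_apply']
      change ((Φ^[n] f).map φ).eval (th q θ (n + 1)) = 0
      rw [th_succ, ← hφ, eval_map_apply, ih, map_zero]
  have hne0 : ∀ (n : ℕ) (f : κ[X]), f ≠ 0 → Φ^[n] f ≠ 0 := by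
    intro n f hf
    induction n with
    | zero => exact hf
    | succ n ih =>
      rw [Function.iterate_succ_apply']
      exact (Polynomial.map_ne_zero_iff φ.injective).2 ih
  have hfix : Φ^[d] (Qk q d k θ) = Qk q d k θ := by
    rw [← hrot d]
    congr 1
    obtain ⟨g, hg⟩ : ∃ g, q ^ d = g + 1 := ⟨q ^ d - 1, by omega⟩
    rw [hg, Nat.add_sub_cancel, add_mul, one_mul, Nat.mul_add_mod, Nat.mod_eq_of_lt (by omega)]
  -- fixed vectors
  have hvec : ∀ i, i ≤ d → 0 < i → ∃ g : κ[X], g ≠ 0 ∧ g.eval (th q θ i) = 0 ∧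
      U q (Qk q d k θ * g) = g := by
    intro i hid hi
    have hj := hβ (d - i) (by omega)
    obtain ⟨f, hf0, _, hfe, hfU⟩ := one_step (p := p) (s := s) hqs hq hq2 hd hθ hne _
      (Nat.mod_lt _ hpos) (by
        refine (Nat.dvd_mod_iff hdvd1).2 ?_
        exact Dvd.dvd.mul_left hdvd _) hj
    refine ⟨Φ^[i] f, hne0 i f hf0, hev i f hfe, ?_⟩
    have h1 := hUΦ i _ f hfU
    rw [hrot (d - i), ← Function.iterate_add_apply, Nat.add_sub_cancel' hid, hfix] at h1
    exact h1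
  obtain ⟨f, hf0, hfd, hfe, hfU⟩ := one_step (p := p) (s := s) hqs hq hq2 hd hθ hne k hk hdvd
    (by have := hβ 0 hd; rwa [pow_zero, one_mul, Nat.mod_eq_of_lt hk] at this)
  by_contra hcon
  push Not at hcon
  apply hf0
  rw [mem_degreeLT] at hfd
  have hfd' : f.degree < (Finset.range d).card := by rwa [Finset.card_range]
  refine Polynomial.eq_zero_of_degree_lt_of_eval_index_eq_zero (v := th q θ) (Finset.range d)
    (by
      intro i hi j hj hij
      exact th_inj (p := p) (s := s) hqs hne (by simpa using hi) (by simpa using hj) hij) hfd' ?_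
  intro i hi
  have hi' := Finset.mem_range.1 hi
  rcases Nat.eq_zero_or_pos i with rfl | hi0
  · rw [th_zero]; exact hfe
  obtain ⟨g, hg0, hge, hgU⟩ := hvec i hi'.le hi0
  have hdep : ¬ LinearIndependent κ ![f, g] := fun h => hcon f g h hfU hgU
  rw [LinearIndependent.pair_iff] at hdep
  push Not at hdep
  obtain ⟨a, b, hab, hab'⟩ := hdep
  have ha : a ≠ 0 := by
    rintro rfl
    rw [zero_smul, zero_add] at hab
    exact (smul_ne_zero (hab' rfl) hg0) hab
  have h1 := congrArg (Polynomial.eval (th q θ i)) hab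
  simp only [eval_add, eval_smul, smul_eq_mul, eval_zero, hge, mul_zero, add_zero] at h1
  exact (mul_eq_zero.1 h1).resolve_left ha

end Final

theorem taskA : Pool.Agent.R360.GK.TaskA := by
  intro p q s d hp hqs hs hd κ _ _ θ hθ hne k _ hk hdvd hβ
  have : Fact p.Prime := ⟨hp⟩
  have hq2 : 2 ≤ q := by
    rw [hqs]
    exact le_trans hp.two_le (Nat.le_self_pow (by omega) p)
  exact taskA_aux (p := p) (s := s) hqs hq2 hd hθ hne k hk hdvd hβ

end Pool.Agent.R664.GK
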