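import Pool.Agent.R664.GK.WG

/-!
# Task F: the character components of the unit group have rank at most one
-/

set_option autoImplicit false

open scoped TensorProduct

namespace Pool.Agent.R664.GK

section F

variable {p : ℕ} [hp : Fact p.Prime] {κ : Type} [Field κ] [CharP κ p]
  {G : Type} [Group G] {E : Type} [AddCommGroup E] [DistribMulAction G E]

theorem isUnit_natCast_W {m : ℕ} (hm : m.Coprime p) : IsUnit (m : WittVector p κ) := by
  apply WittVector.isUnit_of_coeff_zero_ne_zero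
  have h1 : WittVector.constantCoeff (m : WittVector p κ) = (m : κ) := map_natCast _ _
  intro h
  have h2 : (m : κ) = 0 := by rw [← h1]; exact h
  rw [CharP.cast_eq_zero_iff κ p] at h2
  exact (Nat.Prime.coprime_iff_not_dvd hp.out).1 hm.symm h2

/-- action of `σ` on `E` as a `ℤ`-linear map -/
def actE (σ : G) : E →ₗ[ℤ] E := (DistribSMul.toAddMonoidHom E σ).toIntLinearMap

@[simp] theorem actE_apply (σ : G) (e : E) : actE σ e = σ • e := rfl

/-- the action of `σ` on `W ⊗ E` -/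
noncomputable def actW (p : ℕ) [Fact p.Prime] (κ : Type) [Field κ] (σ : G) :
    WittVector p κ ⊗[ℤ] E →ₗ[ℤ] WittVector p κ ⊗[ℤ] E :=
  LinearMap.lTensor (WittVector p κ) (actE σ)

/-- the valuation `W ⊗ E → W` -/
noncomputable def nu (p : ℕ) [Fact p.Prime] (κ : Type) [Field κ] (v : E →+ ℤ) :
    WittVector p κ ⊗[ℤ] E →ₗ[ℤ] WittVector p κ :=
  (TensorProduct.rid ℤ (WittVector p κ)).toLinearMap ∘ₗ
    LinearMap.lTensor (WittVector p κ) v.toIntLinearMap

omit [CharP κ p] in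
theorem nu_tmul (v : E →+ ℤ) (w : WittVector p κ) (e : E) :
    nu p κ v (w ⊗ₜ e) = v e • w := by
  change TensorProduct.rid ℤ (WittVector p κ)
    (LinearMap.lTensor (WittVector p κ) v.toIntLinearMap (w ⊗ₜ e)) = _
  rw [LinearMap.lTensor_tmul, TensorProduct.rid_tmul]
  rfl

omit [CharP κ p] in
theorem actW_tmul (σ : G) (w : WittVector p κ) (e : E) :
    actW p κ σ (w ⊗ₜ e) = w ⊗ₜ (σ • e) := by
  change LinearMap.lTensor (WittVector p κ) (actE σ) (w ⊗ₜ e) = _
  rw [LinearMap.lTensor_tmul]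
  rfl

omit [CharP κ p] in
theorem nu_smul (v : E →+ ℤ) (r : WittVector p κ) (t : WittVector p κ ⊗[ℤ] E) :
    nu p κ v (r • t) = r * nu p κ v t := by
  induction t with
  | zero => simp
  | tmul w e => rw [TensorProduct.smul_tmul', nu_tmul, nu_tmul, smul_eq_mul, mul_smul_comm]
  | add x y hx hy => rw [smul_add, map_add, map_add, hx, hy, mul_add]

omit [CharP κ p] in
theorem actW_smul (σ : G) (r : WittVector p κ) (t : WittVector p κ ⊗[ℤ] E) :
    actW p κ σ (r • t) = r • actW p κ σ t := lTensor_smul' _ _ _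

omit [CharP κ p] in
theorem actW_mul (σ τ : G) (t : WittVector p κ ⊗[ℤ] E) :
    actW p κ (σ * τ) t = actW p κ σ (actW p κ τ t) := by
  induction t with
  | zero => simp
  | tmul w e => rw [actW_tmul, actW_tmul, actW_tmul, mul_smul]
  | add x y hx hy => rw [map_add, map_add, map_add, hx, hy]

/-- the joint kernel of all valuations is zero in `W ⊗ E` -/
theorem eq_zero_of_nu [Finite G] (v : E →+ ℤ)
    (hv : ∀ e : E, (∀ σ : G, v (σ • e) = 0) → ∃ m : ℕ, m.Coprime p ∧ m • e = 0)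
    (t : WittVector p κ ⊗[ℤ] E) (ht : ∀ σ : G, nu p κ v (actW p κ σ t) = 0) : t = 0 := by
  classical
  have := Fintype.ofFinite G
  let V : E →ₗ[ℤ] (G → ℤ) := LinearMap.pi fun σ => v.toIntLinearMap ∘ₗ actE σ
  have h1 : LinearMap.lTensor (WittVector p κ) V t = 0 := by
    apply (TensorProduct.piScalarRight ℤ ℤ (WittVector p κ) G).injective
    rw [map_zero]
    have : ∀ s : WittVector p κ ⊗[ℤ] E, ∀ σ : G,
        TensorProduct.piScalarRight ℤ ℤ (WittVector p κ) G
          (LinearMap.lTensor (WittVector p κ) V s) σ = nu p κ v (actW p κ σ s) := by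
      intro s σ
      induction s with
      | zero => simp
      | tmul w e =>
        rw [actW_tmul, nu_tmul, LinearMap.lTensor_tmul]
        simp [V]
      | add x y hx hy => rw [map_add, map_add, Pi.add_apply, hx, hy, map_add, map_add]
    ext1 σ
    rw [this, ht]
    rfl
  let V' := V.rangeRestrict
  have h2 : LinearMap.lTensor (WittVector p κ) V' t = 0 := by
    have hinj : Function.Injective
        (LinearMap.lTensor (WittVector p κ) (LinearMap.range V).subtype) :=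
      Module.Flat.lTensor_preserves_injective_linearMap _ (Submodule.injective_subtype _)
    apply hinj
    rw [map_zero, ← h1, ← LinearMap.comp_apply, ← LinearMap.lTensor_comp]
    rfl
  have hex : Function.Exact (LinearMap.ker V).subtype V' := by
    intro x
    constructor
    · intro hx
      exact ⟨⟨x, congrArg Subtype.val hx⟩, rfl⟩
    · rintro ⟨x, rfl⟩
      exact Subtype.ext x.2
  obtain ⟨s, rfl⟩ := (lTensor_exact (WittVector p κ) hex (LinearMap.surjective_rangeRestrict V) t).1 h2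
  clear ht h1 h2
  induction s with
  | zero => simp
  | tmul w e =>
    obtain ⟨m, hm, hme⟩ := hv e.1 fun σ => congrFun e.2 σ
    obtain ⟨u, hu⟩ := isUnit_natCast_W (κ := κ) hm
    rw [LinearMap.lTensor_tmul]
    have h5 : w = (m : ℤ) • ((u⁻¹ : (WittVector p κ)ˣ) * w) := by
      rw [zsmul_eq_mul, Int.cast_natCast, ← hu, ← mul_assoc, Units.mul_inv, one_mul]
    rw [h5, TensorProduct.smul_tmul]
    have h6 : (m : ℤ) • (LinearMap.ker V).subtype e = 0 := by
      rw [natCast_zsmul]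
      exact hme
    rw [h6, TensorProduct.tmul_zero]
  | add x y hx hy => rw [map_add, hx, hy, add_zero]

end F

section Main

variable {p : ℕ} [hp : Fact p.Prime] {κ : Type} [Field κ] [CharP κ p] [Algebra (ZMod p) κ]
  {G : Type} [Group G] {E : Type} [AddCommGroup E] [DistribMulAction G E]
  {F : Type} [AddCommGroup F] [Module (ZMod p) F] [DistribMulAction G F]

/-- The map `Ξ(w ⊗ e)(c) = Tr(c w̄) dl(e)`. -/
noncomputable def Xi (dl : E →+ F) (c : κ) : WittVector p κ ⊗[ℤ] E →ₗ[ℤ] F :=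
  TensorProduct.lift (LinearMap.mk₂ ℤ
    (fun w e => Algebra.trace (ZMod p) κ (c * WittVector.constantCoeff w) • dl e)
    (fun w w' e => by rw [map_add, mul_add, map_add, add_smul])
    (fun n w e => by rw [map_zsmul, mul_smul_comm, map_zsmul, smul_assoc])
    (fun w e e' => by rw [map_add, smul_add])
    (fun n w e => by rw [map_zsmul, smul_comm]))

omit [CharP κ p] in
theorem Xi_tmul (dl : E →+ F) (c : κ) (w : WittVector p κ) (e : E) :
    Xi dl c (w ⊗ₜ e) = Algebra.trace (ZMod p) κ (c * WittVector.constantCoeff w) • dl e := rfl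

omit [CharP κ p] in
theorem Xi_smul (dl : E →+ F) (c : κ) (r : WittVector p κ) (t : WittVector p κ ⊗[ℤ] E) :
    Xi dl c (r • t) = Xi dl (c * WittVector.constantCoeff r) t := by
  induction t with
  | zero => simp
  | tmul w e =>
    rw [TensorProduct.smul_tmul', Xi_tmul, Xi_tmul, smul_eq_mul,
      map_mul WittVector.constantCoeff, mul_assoc]
  | add x y hx hy => rw [smul_add, map_add, map_add, hx, hy]

omit [CharP κ p] in
theorem Xi_act (dl : E →+ F) (hdl : ∀ (σ : G) (e : E), dl (σ • e) = σ • dl e) (c : κ) (σ : G)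
    (t : WittVector p κ ⊗[ℤ] E) : Xi dl c (actW p κ σ t) = σ • Xi dl c t := by
  induction t with
  | zero => simp
  | tmul w e =>
    rw [actW_tmul, Xi_tmul, Xi_tmul, hdl]
    exact (ZMod.map_smul (DistribSMul.toAddMonoidHom F σ) _ _).symm
  | add x y hx hy => rw [map_add, map_add, map_add, hx, hy, smul_add]

theorem exists_T [Finite κ] (dl : E →+ F) (z : κ →+ F) (hz : ∀ c, ∃ e, dl e = z c) :
    ∃ T : WittVector p κ ⊗[ℤ] E, ∀ c, Xi dl c T = z c := by
  classical
  have : Module.Finite (ZMod p) κ := Module.Finite.of_finite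
  have : Algebra.IsSeparable (ZMod p) κ := inferInstance
  let b := Module.Free.chooseBasis (ZMod p) κ
  choose e he using hz
  refine ⟨∑ j, WittVector.teichmuller p (b j) ⊗ₜ[ℤ] e (b.traceDual j), fun c => ?_⟩
  rw [map_sum]
  conv_rhs => rw [← b.traceDual.sum_repr c, map_sum]
  refine Finset.sum_congr rfl fun j _ => ?_
  rw [Xi_tmul, he, ZMod.map_smul, Module.Basis.traceDual_repr_apply, Algebra.traceForm_apply]
  have h0 : ∀ a : κ, WittVector.constantCoeff (WittVector.teichmuller p a) = a := fun a =>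
    WittVector.teichmuller_coeff_zero p a
  rw [h0]

theorem exists_T' [Finite κ] [Finite G] (dl : E →+ F)
    (hdl : ∀ (σ : G) (e : E), dl (σ • e) = σ • dl e) (χ : G →* κˣ) (z : κ →+ F)
    (hz : ∀ c, ∃ e, dl e = z c) (hχ : ∀ (σ : G) (c : κ), σ • z c = z (χ σ * c)) :
    ∃ T : WittVector p κ ⊗[ℤ] E, (∀ c, Xi dl c T = Nat.card G • z c) ∧
      ∀ σ : G, actW p κ σ T = WittVector.teichmuller p (χ σ : κ) • T := by
  classical
  have := Fintype.ofFinite G
  obtain ⟨T, hT⟩ := exists_T dl z hz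
  have h0 : ∀ a : κ, WittVector.constantCoeff (WittVector.teichmuller p a) = a := fun a =>
    WittVector.teichmuller_coeff_zero p a
  refine ⟨∑ σ : G, WittVector.teichmuller p (χ σ⁻¹ : κ) • actW p κ σ T, fun c => ?_, fun σ => ?_⟩
  · rw [map_sum]
    have : ∀ σ : G, Xi dl c (WittVector.teichmuller p (χ σ⁻¹ : κ) • actW p κ σ T) = z c := by
      intro σ
      rw [Xi_smul, Xi_act dl hdl, hT, hχ, h0]
      congr 1
      rw [map_inv, mul_comm, mul_assoc, Units.inv_mul, mul_one]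
    rw [Finset.sum_congr rfl fun σ _ => this σ, Finset.sum_const, Nat.card_eq_fintype_card]
    rfl
  · rw [map_sum, Finset.smul_sum]
    refine Fintype.sum_equiv (Equiv.mulLeft σ) _ _ fun τ => ?_
    have h1 : χ τ⁻¹ = χ σ * χ (σ * τ)⁻¹ := by
      rw [map_inv, map_inv, map_mul, mul_inv, mul_inv_cancel_left]
    rw [actW_smul, ← actW_mul, smul_smul, Equiv.coe_mulLeft, ← map_mul, ← Units.val_mul, ← h1]

theorem main_F [Finite κ] [Finite G] (hG : (Nat.card G).Coprime p) (v : E →+ ℤ)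
    (hv : ∀ e : E, (∀ σ : G, v (σ • e) = 0) → ∃ m : ℕ, m.Coprime p ∧ m • e = 0)
    (dl : E →+ F) (hdl : ∀ (σ : G) (e : E), dl (σ • e) = σ • dl e) (χ : G →* κˣ)
    (z₁ z₂ : κ →+ F) (h₁ : ∀ c, ∃ e, dl e = z₁ c) (h₂ : ∀ c, ∃ e, dl e = z₂ c)
    (h₁χ : ∀ (σ : G) (c : κ), σ • z₁ c = z₁ (χ σ * c))
    (h₂χ : ∀ (σ : G) (c : κ), σ • z₂ c = z₂ (χ σ * c)) :
    ∃ b₁ b₂ : κ, (b₁ ≠ 0 ∨ b₂ ≠ 0) ∧ ∀ c, z₁ (b₁ * c) + z₂ (b₂ * c) = 0 := by
  obtain ⟨T₁, hT₁, hT₁'⟩ := exists_T' dl hdl χ z₁ h₁ h₁χ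
  obtain ⟨T₂, hT₂, hT₂'⟩ := exists_T' dl hdl χ z₂ h₂ h₂χ
  -- the cancellation of `|G|`
  have hcancel : ∀ f : F, Nat.card G • f = 0 → f = 0 := by
    intro f hf
    rw [← Nat.cast_smul_eq_nsmul (ZMod p)] at hf
    rcases smul_eq_zero.1 hf with h | h
    · exfalso
      rw [ZMod.natCast_eq_zero_iff] at h
      exact (Nat.Prime.coprime_iff_not_dvd hp.out).1 hG.symm h
    · exact h
  have key : ∀ (y₁ y₂ : κ →+ F) (S₁ S₂ : WittVector p κ ⊗[ℤ] E),
      (∀ c, Xi dl c S₁ = Nat.card G • y₁ c) →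
      (∀ σ : G, actW p κ σ S₁ = WittVector.teichmuller p (χ σ : κ) • S₁) →
      (∀ c, Xi dl c S₂ = Nat.card G • y₂ c) →
      (∀ σ : G, actW p κ σ S₂ = WittVector.teichmuller p (χ σ : κ) • S₂) →
      nu p κ v S₁ ∣ nu p κ v S₂ → ∃ r : κ, ∀ c, y₁ (r * c) + y₂ ((-1) * c) = 0 := by
    intro y₁ y₂ S₁ S₂ a₁ a₁' a₂ a₂' hdvd
    obtain ⟨r, hr⟩ := hdvd
    have h0 : S₂ - r • S₁ = 0 := by
      apply eq_zero_of_nu v hv
      intro σ
      rw [map_sub, map_sub, actW_smul, a₁', a₂', nu_smul, nu_smul, nu_smul, hr]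
      ring
    refine ⟨WittVector.constantCoeff r, fun c => ?_⟩
    apply hcancel
    have h1 : Xi dl c S₂ = Xi dl c (r • S₁) := by
      rw [sub_eq_zero.1 h0]
    rw [Xi_smul, a₁, a₂] at h1
    rw [smul_add, neg_one_mul, map_neg, smul_neg, h1, mul_comm, add_neg_cancel]
  rcases ValuationRing.dvd_total (nu p κ v T₁) (nu p κ v T₂) with h | h
  · obtain ⟨r, hr⟩ := key z₁ z₂ T₁ T₂ hT₁ hT₁' hT₂ hT₂' h
    exact ⟨r, -1, Or.inr (by simp), hr⟩
  · obtain ⟨r, hr⟩ := key z₂ z₁ T₂ T₁ hT₂ hT₂' hT₁ hT₁' h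
    exact ⟨-1, r, Or.inl (by simp), fun c => by rw [add_comm]; exact hr c⟩

end Main

theorem taskF : Pool.Agent.R360.GK.TaskF := by
  intro p hp κ _ _ _ G _ _ hG E _ _ v hv F _ _ hF dl hdl χ z₁ z₂ h₁ h₂ h₁χ h₂χ
  exact @main_F p ⟨hp⟩ κ _ _ (ZMod.algebra κ p) G _ E _ _ F _ (AddCommGroup.zmodModule hF) _ _ _
    hG v hv dl hdl χ z₁ z₂ h₁ h₂ h₁χ h₂χ

end Pool.Agent.R664.GK
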