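import Pool.Agent.R360.GK.Tasks

/-!
# Task A, part 1: the operator `U` and determinants
-/

set_option autoImplicit false

open Polynomial
open Pool.Agent.R360.GK (U)

namespace Pool.Agent.R664.GK

section U

variable {κ : Type} [Field κ] {q : ℕ}

theorem coeff_U (hq : 0 < q) (f : κ[X]) (n : ℕ) :
    (U q f).coeff n = f.coeff (q * n + (q - 1)) := by
  rw [U, coeff_divX, coeff_contract hq.ne']
  have : (n + 1) * q = (q * n + (q - 1)) + 1 := by rw [add_mul, one_mul, mul_comm n q]; omega
  rw [this, coeff_X_mul]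

/-- `U` as a linear map -/
noncomputable def UL (hq : 0 < q) : κ[X] →ₗ[κ] κ[X] where
  toFun := U q
  map_add' f g := by ext n; simp [coeff_U hq]
  map_smul' c f := by ext n; simp [coeff_U hq]

theorem UL_apply (hq : 0 < q) (f : κ[X]) : UL hq f = U q f := rfl

theorem U_X_pow_mul (hq : 0 < q) (f : κ[X]) : U q (X ^ q * f) = X * U q f := by
  ext n
  rw [coeff_U hq]
  cases n with
  | zero =>
    rw [coeff_X_pow_mul', if_neg (by omega), coeff_zero_eq_eval_zero]
    simp
  | succ n =>
    rw [coeff_X_mul, coeff_U hq]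
    have : q * (n + 1) + (q - 1) = (q * n + (q - 1)) + q := by ring
    rw [this, coeff_X_pow_mul]

theorem U_sub (hq : 0 < q) (f g : κ[X]) : U q (f - g) = U q f - U q g := (UL hq).map_sub f g

theorem U_C_mul (hq : 0 < q) (c : κ) (f : κ[X]) : U q (C c * f) = C c * U q f := by
  have := (UL hq).map_smul c f
  rw [UL_apply, UL_apply, smul_eq_C_mul, smul_eq_C_mul] at this
  exact this

theorem U_pow_mul {p s : ℕ} [Fact p.Prime] [CharP κ p] (hqs : q = p ^ s) (y : κ) (f : κ[X]) :
    U q ((X - C y) ^ q * f) = (X - C (y ^ q)) * U q f := by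
  have hq : 0 < q := by rw [hqs]; exact pow_pos (Fact.out : p.Prime).pos s
  have h1 : ((X - C y) ^ q : κ[X]) = X ^ q - C (y ^ q) := by
    rw [hqs, sub_pow_char_pow, C_pow]
  rw [h1, sub_mul, U_sub hq, U_X_pow_mul hq, U_C_mul hq, sub_mul]

/-- the operator `u ↦ (X - θ) u - U (P u)` -/
noncomputable def opA (hq : 0 < q) (θ : κ) (P : κ[X]) : κ[X] →ₗ[κ] κ[X] where
  toFun u := (X - C θ) * u - U q (P * u)
  map_add' u v := by
    have := (UL (κ := κ) hq).map_add (P * u) (P * v)
    rw [UL_apply, UL_apply, UL_apply] at this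
    rw [mul_add, mul_add, this]
    ring
  map_smul' c u := by
    have := (UL (κ := κ) hq).map_smul c (P * u)
    rw [UL_apply, UL_apply] at this
    rw [mul_smul_comm, mul_smul_comm, this, RingHom.id_apply, smul_sub]

theorem opA_apply (hq : 0 < q) (θ : κ) (P u : κ[X]) :
    opA hq θ P u = (X - C θ) * u - U q (P * u) := rfl

/-- degree bound -/
theorem coeff_opA_eq_zero (hq : 0 < q) (θ : κ) (P : κ[X]) (hP : P.Monic) (r : ℕ)
    (hdeg : P.natDegree = (q - 1) * (r + 1) + 1) (u : κ[X]) (hu : u ∈ degreeLT κ r) (n : ℕ)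
    (hn : r ≤ n) : (opA hq θ P u).coeff n = 0 := by
  rw [mem_degreeLT] at hu
  rcases eq_or_ne u 0 with rfl | hu0
  · simp
  have hu' : u.natDegree < r := (natDegree_lt_iff_degree_lt hu0).2 hu
  obtain ⟨r, rfl⟩ : ∃ r', r = r' + 1 := ⟨r - 1, by omega⟩
  obtain ⟨q', rfl⟩ : ∃ q', q = q' + 1 := ⟨q - 1, by omega⟩
  simp only [Nat.add_sub_cancel] at hdeg
  obtain ⟨n, rfl⟩ : ∃ n', n = n' + 1 := ⟨n - 1, by omega⟩
  rw [opA_apply, coeff_sub, coeff_U hq, sub_mul, coeff_sub, coeff_X_mul, coeff_C_mul,
    coeff_eq_zero_of_natDegree_lt (p := u) (n := n + 1) (by omega), mul_zero, sub_zero]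
  have hle : u.natDegree ≤ r := by omega
  rcases Nat.lt_or_ge r n with hn' | hn'
  · rw [coeff_eq_zero_of_natDegree_lt (p := u) (n := n) (by omega),
      coeff_eq_zero_of_natDegree_lt, sub_zero]
    refine lt_of_le_of_lt (natDegree_mul_le (p := P) (q := u)) ?_
    rw [hdeg]
    simp only [Nat.add_sub_cancel]
    have : q' * (r + 1 + 1) + 1 + r < (q' + 1) * (n + 1) + q' := by
      nlinarith [Nat.zero_le q']
    omega
  · have hnr : n = r := by omega
    subst hnr
    have h2 : (q' + 1) * (n + 1) + (q' + 1 - 1) = P.natDegree + n := by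
      rw [hdeg]; simp only [Nat.add_sub_cancel]; ring
    rw [h2, coeff_mul_add_eq_of_natDegree_le le_rfl hle, hP.coeff_natDegree, one_mul, sub_self]

end U

section Det

variable {κ : Type} [Field κ]

/-- the determinant of the compression of `A` to polynomials of degree `< r` -/
noncomputable def detA (A : κ[X] →ₗ[κ] κ[X]) (r : ℕ) : κ :=
  (Matrix.of fun i j : Fin r => (A (X ^ (j : ℕ))).coeff (i : ℕ)).det

theorem sum_coeff_of_lt (f : κ[X]) (r : ℕ) (h : ∀ n, r ≤ n → f.coeff n = 0) :
    ∑ k : Fin r, C (f.coeff k) * X ^ (k : ℕ) = f := by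
  rw [Fin.sum_univ_eq_sum_range (fun k => C (f.coeff k) * X ^ k) r]
  ext n
  rw [finsetSum_coeff]
  simp only [coeff_C_mul_X_pow]
  rw [Finset.sum_ite_eq (Finset.range r) n]
  split_ifs with hn
  · rfl
  · rw [h n (by simpa using hn)]

theorem detA_succ (A A' : κ[X] →ₗ[κ] κ[X]) (y a : κ) (r : ℕ)
    (hA : ∀ w, A ((X - C y) * w) = (X - C y) * A' w) (h1 : (A 1).eval y = a)
    (hd1 : ∀ n, r + 1 ≤ n → (A 1).coeff n = 0)
    (hd' : ∀ j < r, ∀ n, r ≤ n → (A' (X ^ j)).coeff n = 0) :
    detA A (r + 1) = a * detA A' r := by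
  -- the quotient
  obtain ⟨w, hw⟩ : ∃ w : κ[X], (X - C y) * w = A 1 - C a := by
    refine ⟨(A 1 - C a) /ₘ (X - C y), ?_⟩
    rw [mul_divByMonic_eq_iff_isRoot, IsRoot.def]
    simp [h1]
  have hwd : ∀ n, r ≤ n → w.coeff n = 0 := by
    intro n hn
    rcases eq_or_ne w 0 with rfl | hw0
    · simp
    apply coeff_eq_zero_of_natDegree_lt
    have h2 : ((X - C y) * w).natDegree = 1 + w.natDegree := by
      rw [natDegree_mul (X_sub_C_ne_zero y) hw0, natDegree_X_sub_C]
    have h3 : ((X - C y) * w).natDegree ≤ r := by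
      rw [hw, natDegree_le_iff_coeff_eq_zero]
      intro N hN
      rw [coeff_sub, hd1 N hN, coeff_C, if_neg (by omega), sub_zero]
    omega
  let b : Fin (r + 1) → κ[X] := Fin.cons 1 (fun i => (X - C y) * X ^ (i : ℕ))
  have hb0 : b 0 = 1 := rfl
  have hbs : ∀ i : Fin r, b i.succ = (X - C y) * X ^ (i : ℕ) := fun i => rfl
  have hbc : ∀ (i : Fin r) (n : ℕ), (b i.succ).coeff n =
      (if n = i + 1 then 1 else 0) - y * (if n = i then 1 else 0) := by
    intro i n
    rw [hbs, sub_mul, ← pow_succ', coeff_sub, coeff_X_pow, coeff_C_mul, coeff_X_pow]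
  let M : Matrix (Fin (r + 1)) (Fin (r + 1)) κ :=
    Matrix.of fun i j => (A (X ^ (j : ℕ))).coeff (i : ℕ)
  let B : Matrix (Fin (r + 1)) (Fin (r + 1)) κ := Matrix.of fun i j => (b j).coeff (i : ℕ)
  let N : Matrix (Fin (r + 1)) (Fin (r + 1)) κ :=
    Matrix.of (Fin.cons (Fin.cons a fun _ => 0)
      (fun i : Fin r => Fin.cons (w.coeff i) (fun j : Fin r => (A' (X ^ (j : ℕ))).coeff (i : ℕ))))
  have hB : B.det = 1 := by
    rw [Matrix.det_of_isUpperTriangular]
    · apply Finset.prod_eq_one
      intro i _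
      refine Fin.cases ?_ (fun i => ?_) i
      · simp [B, hb0]
      · simp only [B, Matrix.of_apply, hbc, Fin.val_succ]
        simp
    · intro i j hij
      simp only [id] at hij
      induction j using Fin.cases with
      | zero =>
        simp only [B, Matrix.of_apply, hb0]
        rw [coeff_one, if_neg]
        have : (0 : ℕ) < (i : ℕ) := hij
        omega
      | succ j =>
        have h4 : (j : ℕ) + 1 < (i : ℕ) := by
          have := Fin.lt_def.1 hij
          simpa using this
        simp only [B, Matrix.of_apply, hbc]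
        rw [if_neg (by omega), if_neg (by omega)]
        simp
  have hMB : M * B = B * N := by
    ext i j
    have hbj : ∀ n, r + 1 ≤ n → (b j).coeff n = 0 := by
      intro n hn
      induction j using Fin.cases with
      | zero => rw [hb0, coeff_one, if_neg (by omega)]
      | succ j =>
        rw [hbc, if_neg (by omega), if_neg (by omega)]
        simp
    have hL : (M * B) i j = (A (b j)).coeff i := by
      conv_rhs => rw [← sum_coeff_of_lt (b j) (r + 1) hbj, map_sum, finsetSum_coeff]
      rw [Matrix.mul_apply]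
      refine Finset.sum_congr rfl fun k _ => ?_
      simp only [M, B, Matrix.of_apply]
      rw [← smul_eq_C_mul, map_smul, coeff_smul, smul_eq_mul, mul_comm]
    have hR : (B * N) i j = (C (N 0 j) + (X - C y) *
        ∑ k : Fin r, C (N k.succ j) * X ^ (k : ℕ)).coeff (i : ℕ) := by
      rw [Matrix.mul_apply, Fin.sum_univ_succ, coeff_add]
      congr 1
      · simp only [B, Matrix.of_apply, hb0, coeff_one, coeff_C]
        split_ifs <;> simp
      · rw [Finset.mul_sum, finsetSum_coeff]
        refine Finset.sum_congr rfl fun k _ => ?_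
        simp only [B, Matrix.of_apply, hbs]
        rw [mul_left_comm, coeff_C_mul, mul_comm]
    rw [hL, hR]
    congr 1
    induction j using Fin.cases with
    | zero =>
      have e1 : ∑ k : Fin r, C (N k.succ 0) * X ^ (k : ℕ) = w := sum_coeff_of_lt w r hwd
      have e2 : N 0 0 = a := rfl
      rw [e1, e2, hw, hb0]
      ring
    | succ j =>
      have e1 : ∑ k : Fin r, C (N k.succ j.succ) * X ^ (k : ℕ) = A' (X ^ (j : ℕ)) :=
        sum_coeff_of_lt _ r (hd' j j.2)
      have e2 : N 0 j.succ = 0 := rfl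
      rw [e1, e2, hbs, hA]
      simp
  have hN : N.det = a * detA A' r := by
    rw [Matrix.det_succ_row_zero, Fin.sum_univ_succ]
    have e2 : ∀ j : Fin r, N 0 j.succ = 0 := fun _ => rfl
    have e3 : N 0 0 = a := rfl
    rw [Finset.sum_eq_zero, add_zero, e3]
    · simp only [Fin.val_zero, pow_zero, one_mul]
      congr 1
    · intro j _
      rw [e2]
      simp
  have h5 : M.det = N.det := by
    have h6 := congrArg Matrix.det hMB
    rw [Matrix.det_mul, Matrix.det_mul, hB, mul_one, one_mul] at h6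
    exact h6
  change M.det = _
  rw [h5, hN]

end Det

end Pool.Agent.R664.GK
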