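import Pool.Agent.R664.GK.A1

/-!
# Task A, part 2: the relations (a) and (b) for the determinants
-/

set_option autoImplicit false

open Polynomial
open Pool.Agent.R360.GK (U)

namespace Pool.Agent.R664.GK

section

variable {κ : Type} [Field κ] {q : ℕ}

theorem X_pow_mem_degreeLT {j r : ℕ} (h : j < r) : (X ^ j : κ[X]) ∈ degreeLT κ r := by
  rw [mem_degreeLT, degree_X_pow]
  exact_mod_cast h

/-- relation (b) -/
theorem detA_b {p s : ℕ} [Fact p.Prime] [CharP κ p] (hqs : q = p ^ s) (hq : 0 < q) (θ y : κ)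
    (R : κ[X]) (hR : R.Monic) (r : ℕ) (hdeg : R.natDegree = (q - 1) * (r + 1)) :
    detA (opA hq θ ((X - C y) ^ q * R)) (r + 1) =
      (y ^ q - θ) * detA (opA hq θ ((X - C (y ^ q)) * R)) r := by
  have hU : ∀ f : κ[X], U q ((X - C y) ^ q * f) = (X - C (y ^ q)) * U q f := fun f =>
    U_pow_mul (p := p) (s := s) hqs y f
  apply detA_succ (y := y ^ q)
  · intro w
    rw [opA_apply, opA_apply, mul_assoc, hU, mul_sub, mul_left_comm]
    congr 3
    ring
  · rw [opA_apply, mul_one, mul_one, hU]
    simp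
  · intro n hn
    refine coeff_opA_eq_zero hq θ _ ?_ (r + 1) ?_ 1 ?_ n hn
    · exact ((monic_X_sub_C y).pow q).mul hR
    · rw [((monic_X_sub_C y).pow q).natDegree_mul hR, (monic_X_sub_C y).natDegree_pow,
        natDegree_X_sub_C, hdeg]
      obtain ⟨q', rfl⟩ : ∃ q', q = q' + 1 := ⟨q - 1, by omega⟩
      simp only [Nat.add_sub_cancel]
      ring
    · have := X_pow_mem_degreeLT (κ := κ) (j := 0) (r := r + 1) (by omega)
      simpa using this
  · intro j hj n hn
    refine coeff_opA_eq_zero hq θ _ ?_ r ?_ _ (X_pow_mem_degreeLT hj) n hn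
    · exact (monic_X_sub_C (y ^ q)).mul hR
    · rw [(monic_X_sub_C (y ^ q)).natDegree_mul hR, natDegree_X_sub_C, hdeg]
      ring

/-- relation (a) -/
theorem detA_a (hq : 0 < q) (θ : κ) (R : κ[X]) (r d : ℕ) (hrd : r + 2 ≤ d) (v : ℕ → κ)
    (hv : Set.InjOn v (Finset.range d)) :
    ∑ j ∈ Finset.range d, detA (opA hq θ ((X - C (v j)) * R)) r /
      ∏ i ∈ (Finset.range d).erase j, (v j - v i) = 0 := by
  classical
  let A : Matrix (Fin r) (Fin r) κ := Matrix.of fun i j => (U q (R * X ^ (j : ℕ))).coeff (i : ℕ)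
  let B : Matrix (Fin r) (Fin r) κ := Matrix.of fun i j =>
    ((X - C θ) * X ^ (j : ℕ) - U q (X * (R * X ^ (j : ℕ)))).coeff (i : ℕ)
  let h : κ[X] := ((X : κ[X]) • A.map C + B.map C).det
  have hh : h.natDegree ≤ r := by
    have := natDegree_det_X_add_C_le A B
    rwa [Fintype.card_fin] at this
  have he : ∀ y, h.eval y = detA (opA hq θ ((X - C y) * R)) r := by
    intro y
    rw [← coe_evalRingHom, RingHom.map_det, detA]
    congr 1
    ext i j
    simp only [RingHom.mapMatrix_apply, Matrix.map_apply, Matrix.add_apply, Matrix.smul_apply,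
      smul_eq_mul, A, B, Matrix.of_apply, coe_evalRingHom, eval_add, eval_mul, eval_X, eval_C]
    rw [opA_apply]
    have : (X - C y) * R * X ^ (j : ℕ) = X * (R * X ^ (j : ℕ)) - C y * (R * X ^ (j : ℕ)) := by
      ring
    rw [this, U_sub hq, U_C_mul hq]
    simp only [coeff_sub, coeff_C_mul]
    ring
  have hdeg : h.degree < (Finset.range d).card := by
    rw [Finset.card_range]
    refine lt_of_le_of_lt degree_le_natDegree ?_
    exact_mod_cast (by omega : h.natDegree < d)
  have h1 := Lagrange.coeff_eq_sum hv hdeg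
  rw [Finset.card_range, coeff_eq_zero_of_natDegree_lt (by omega)] at h1
  rw [h1]
  exact Finset.sum_congr rfl fun j _ => by rw [he]

/-- a vanishing determinant gives a vector in the kernel -/
theorem exists_ker (hq : 0 < q) (θ : κ) (P : κ[X]) (hP : P.Monic) (r : ℕ)
    (hdeg : P.natDegree = (q - 1) * (r + 1) + 1) (hdet : detA (opA hq θ P) r = 0) :
    ∃ u : κ[X], u ≠ 0 ∧ u ∈ degreeLT κ r ∧ U q (P * u) = (X - C θ) * u := by
  obtain ⟨w, hw0, hw⟩ := Matrix.exists_mulVec_eq_zero_iff.2 hdet
  let u : κ[X] := ∑ k : Fin r, C (w k) * X ^ (k : ℕ)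
  have hu : u ∈ degreeLT κ r := by
    refine Submodule.sum_mem _ fun k _ => ?_
    rw [← smul_eq_C_mul]
    exact Submodule.smul_mem _ _ (X_pow_mem_degreeLT k.2)
  have hcu : ∀ i : Fin r, u.coeff i = w i := by
    intro i
    simp only [u, finsetSum_coeff, coeff_C_mul_X_pow]
    rw [Finset.sum_eq_single i]
    · simp
    · intro j _ hji
      rw [if_neg]
      intro h
      exact hji (Fin.ext h.symm)
    · simp
  refine ⟨u, ?_, hu, ?_⟩
  · intro h0
    apply hw0
    ext i
    rw [← hcu, h0]
    simp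
  · have h1 : opA hq θ P u = 0 := by
      ext n
      rw [coeff_zero]
      rcases Nat.lt_or_ge n r with hn | hn
      · have h2 := congrFun hw ⟨n, hn⟩
        simp only [Matrix.mulVec, dotProduct, Matrix.of_apply, Pi.zero_apply] at h2
        rw [← h2]
        simp only [u]
        rw [map_sum, finsetSum_coeff]
        refine Finset.sum_congr rfl fun k _ => ?_
        rw [← smul_eq_C_mul, map_smul, coeff_smul, smul_eq_mul, mul_comm]
      · exact coeff_opA_eq_zero hq θ P hP r hdeg u hu n hn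
    rw [opA_apply] at h1
    exact (sub_eq_zero.1 h1).symm

end

end Pool.Agent.R664.GK
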