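import Pool.Agent.R664.GK.A2

/-!
# Task A, part 3: the Bernoulli-Carlitz side
-/

set_option autoImplicit false

open Polynomial
open Pool.Agent.R360.GK (U dth eser Qk)

namespace Pool.Agent.R664.GK

section Aux

/-- the sequence with the only non-zero term `t` at `i` -/
abbrev sg (i t : ℕ) : ℕ → ℕ := Pi.single i t

theorem prod_pow_single {R : Type} [CommMonoid R] (x : ℕ → R) (m : ℕ → ℕ) {i d : ℕ} (t : ℕ)
    (hi : i < d) : ∏ j ∈ Finset.range d, x j ^ ((m + sg i t) j) =
      (∏ j ∈ Finset.range d, x j ^ m j) * x i ^ t := by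
  simp only [Pi.add_apply, pow_add, Finset.prod_mul_distrib]
  congr 1
  rw [Finset.prod_eq_single i]
  · simp
  · intro j _ hj
    simp [Pi.single_eq_of_ne hj]
  · intro h
    exact absurd (Finset.mem_range.2 hi) h

theorem sum_mul_single (x : ℕ → ℕ) (m : ℕ → ℕ) {i d : ℕ} (t : ℕ)
    (hi : i < d) : ∑ j ∈ Finset.range d, ((m + sg i t) j) * x j =
      (∑ j ∈ Finset.range d, m j * x j) + t * x i := by
  simp only [Pi.add_apply, add_mul, Finset.sum_add_distrib]
  congr 1
  rw [Finset.sum_eq_single i]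
  · simp
  · intro j _ hj
    simp [Pi.single_eq_of_ne hj]
  · intro h
    exact absurd (Finset.mem_range.2 hi) h

theorem sum_single (m : ℕ → ℕ) {i d : ℕ} (t : ℕ)
    (hi : i < d) : ∑ j ∈ Finset.range d, (m + sg i t) j =
      (∑ j ∈ Finset.range d, m j) + t := by
  have := sum_mul_single (fun _ => 1) m t hi
  simpa using this

theorem exists_sub (m : ℕ → ℕ) (j t : ℕ) (h : t ≤ m j) : ∃ m'' : ℕ → ℕ, m = m'' + sg j t := by
  refine ⟨Function.update m j (m j - t), ?_⟩
  ext i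
  rcases eq_or_ne i j with rfl | hi
  · simp; omega
  · simp [hi]

/-- digit sums -/
theorem digit_sum (q : ℕ) (hq : 2 ≤ q) : ∀ (d : ℕ) (m : ℕ → ℕ),
    ∑ j ∈ Finset.range d, m j * q ^ j = q ^ d - 1 → (q - 1) * d ≤ ∑ j ∈ Finset.range d, m j := by
  intro d
  induction d with
  | zero => intro m _; simp
  | succ d ih =>
    intro m hm
    rw [Finset.sum_range_succ'] at hm
    have h1 : ∑ j ∈ Finset.range d, m (j + 1) * q ^ (j + 1) =
        q * ∑ j ∈ Finset.range d, m (j + 1) * q ^ j := by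
      rw [Finset.mul_sum]
      exact Finset.sum_congr rfl fun j _ => by ring
    rw [h1, pow_zero, mul_one] at hm
    have hpow : 1 ≤ q ^ d := Nat.one_le_pow _ _ (by omega)
    set T := ∑ j ∈ Finset.range d, m (j + 1) * q ^ j with hT
    -- `m 0 = q - 1 + q t`
    obtain ⟨t, ht⟩ : ∃ t, m 0 = (q - 1) + q * t := by
      have h2 : q * T + m 0 + 1 = q * q ^ d := by
        rw [hm, pow_succ']
        have : 1 ≤ q * q ^ d := Nat.mul_pos (by omega) hpow
        omega
      have h3 : T < q ^ d := by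
        by_contra hcon
        have : q * q ^ d ≤ q * T := Nat.mul_le_mul_left _ (not_lt.1 hcon)
        omega
      refine ⟨q ^ d - 1 - T, ?_⟩
      obtain ⟨e, he⟩ : ∃ e, q ^ d = T + 1 + e := ⟨q ^ d - T - 1, by omega⟩
      rw [he] at h2 ⊢
      have h4 : T + 1 + e - 1 - T = e := by omega
      rw [h4]
      have h5 : q * (T + 1 + e) = q * T + q + q * e := by ring
      omega
    rcases Nat.eq_zero_or_pos d with rfl | hd
    · simp only [zero_add, mul_one, Finset.range_one, Finset.sum_singleton]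
      omega
    obtain ⟨d, rfl⟩ : ∃ d', d = d' + 1 := ⟨d - 1, by omega⟩
    let m'' : ℕ → ℕ := (fun j => m (j + 1)) + sg 0 t
    have h6 : ∑ j ∈ Finset.range (d + 1), m'' j * q ^ j = q ^ (d + 1) - 1 := by
      rw [sum_mul_single (fun j => q ^ j) _ t (Nat.succ_pos d), ← hT, pow_zero, mul_one]
      have h2 : q * T + m 0 + 1 = q * q ^ (d + 1) := by
        rw [hm, pow_succ' q (d + 1)]
        have : 1 ≤ q * q ^ (d + 1) := Nat.mul_pos (by omega) hpow
        omega
      rw [ht] at h2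
      have h7 : q * (T + t + 1) = q * q ^ (d + 1) := by
        rw [← h2]
        have : q * (T + t + 1) = q * T + q * t + q := by ring
        omega
      have h8 := Nat.eq_of_mul_eq_mul_left (by omega : 0 < q) h7
      omega
    have h9 := ih m'' h6
    rw [sum_single _ t (show 0 < d + 1 from Nat.succ_pos d)] at h9
    rw [Finset.sum_range_succ', ht]
    have h10 : (q - 1) * (d + 1 + 1) = (q - 1) * (d + 1) + (q - 1) := by ring
    have h11 : t ≤ q * t := Nat.le_mul_of_pos_left _ (by omega)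
    omega

end Aux

section G

variable {κ : Type} [Field κ] {q d : ℕ} {θ : κ}

/-- `θ_j` -/
def th (q : ℕ) (θ : κ) (j : ℕ) : κ := θ ^ q ^ j

theorem th_zero : th q θ 0 = θ := by simp [th]

theorem th_succ (j : ℕ) : th q θ (j + 1) = th q θ j ^ q := by
  rw [th, th, ← pow_mul, pow_succ]

theorem th_d (hθ : θ ^ q ^ d = θ) : th q θ d = th q θ 0 := by
  rw [th_zero]; exact hθ

theorem pow_q_inj {p s : ℕ} [Fact p.Prime] [CharP κ p] (hqs : q = p ^ s) {x y : κ}
    (h : x ^ q = y ^ q) : x = y := by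
  rw [hqs] at h
  exact (iterateFrobenius_inj κ p s) (by simpa [iterateFrobenius_def] using h)

theorem th_eq_iff {p s : ℕ} [Fact p.Prime] [CharP κ p] (hqs : q = p ^ s) (i j : ℕ) :
    th q θ (i + 1) = th q θ (j + 1) ↔ th q θ i = th q θ j := by
  rw [th_succ, th_succ]
  exact ⟨fun h => pow_q_inj (p := p) (s := s) hqs h, fun h => by rw [h]⟩

theorem th_inj {p s : ℕ} [Fact p.Prime] [CharP κ p] (hqs : q = p ^ s)
    (hne : ∀ i, 0 < i → i < d → θ ^ q ^ i ≠ θ) {i j : ℕ} (hi : i < d) (hj : j < d)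
    (h : th q θ i = th q θ j) : i = j := by
  induction i generalizing j with
  | zero =>
    by_contra hij
    rw [th_zero] at h
    exact hne j (by omega) hj h.symm
  | succ i ih =>
    cases j with
    | zero =>
      rw [th_zero] at h
      exact absurd h (hne (i + 1) (by omega) hi)
    | succ j =>
      rw [th_eq_iff (p := p) (s := s) hqs] at h
      rw [ih (by omega) (by omega) h]

open Classical in
/-- `c_j = ∏_{i ≠ j} (θ_j - θ_i)` -/
noncomputable def cc (q d : ℕ) (θ : κ) (j : ℕ) : κ :=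
  ∏ i ∈ Finset.range d, if th q θ i = th q θ j then 1 else th q θ j - th q θ i

theorem cc_ne_zero (j : ℕ) : cc q d θ j ≠ 0 := by
  rw [cc, Finset.prod_ne_zero_iff]
  intro i _
  split_ifs with h
  · exact one_ne_zero
  · exact sub_ne_zero.2 fun h' => h h'.symm

theorem cc_eq {p s : ℕ} [Fact p.Prime] [CharP κ p] (hqs : q = p ^ s)
    (hne : ∀ i, 0 < i → i < d → θ ^ q ^ i ≠ θ) {j : ℕ} (hj : j < d) :
    cc q d θ j = ∏ i ∈ (Finset.range d).erase j, (th q θ j - th q θ i) := by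
  rw [cc, ← Finset.mul_prod_erase _ _ (Finset.mem_range.2 hj), if_pos rfl, one_mul]
  refine Finset.prod_congr rfl fun i hi => ?_
  rw [if_neg]
  intro h
  exact (Finset.mem_erase.1 hi).1
    (th_inj (p := p) (s := s) hqs hne (Finset.mem_range.1 (Finset.mem_erase.1 hi).2) hj h)

theorem sub_pow_q {p s : ℕ} [Fact p.Prime] [CharP κ p] (hqs : q = p ^ s) (x y : κ) :
    (x - y) ^ q = x ^ q - y ^ q := by
  rw [hqs]; exact sub_pow_char_pow x y s

theorem cc_pow {p s : ℕ} [Fact p.Prime] [CharP κ p] (hqs : q = p ^ s) (hθ : θ ^ q ^ d = θ)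
    (j : ℕ) : cc q d θ j ^ q = cc q d θ (j + 1) := by
  classical
  rw [cc, cc, ← Finset.prod_pow]
  let f : ℕ → κ := fun i => if th q θ i = th q θ (j + 1) then 1 else th q θ (j + 1) - th q θ i
  have h1 : ∀ i, (if th q θ i = th q θ j then 1 else th q θ j - th q θ i) ^ q = f (i + 1) := by
    intro i
    simp only [f]
    rw [th_eq_iff (p := p) (s := s) hqs]
    split_ifs
    · simp
    · rw [sub_pow_q (p := p) (s := s) hqs, ← th_succ, ← th_succ]
  have h2 : f d = f 0 := by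
    simp only [f, th_d hθ]
  rw [Finset.prod_congr rfl fun i _ => h1 i]
  rcases Nat.eq_zero_or_pos d with rfl | hd
  · simp
  obtain ⟨e, rfl⟩ : ∃ e, d = e + 1 := ⟨d - 1, by omega⟩
  rw [Finset.prod_range_succ, h2, Finset.prod_range_succ' (fun i => if th q θ i = th q θ (j + 1)
    then (1 : κ) else th q θ (j + 1) - th q θ i)]

theorem dth_ne_zero {p s : ℕ} [Fact p.Prime] [CharP κ p] (hqs : q = p ^ s)
    (hne : ∀ i, 0 < i → i < d → θ ^ q ^ i ≠ θ) {j : ℕ} (hj : j < d) : dth q θ j ≠ 0 := by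
  rw [dth, Finset.prod_ne_zero_iff]
  intro i hi
  have hi' := Finset.mem_range.1 hi
  refine sub_ne_zero.2 fun h => ?_
  have := th_inj (p := p) (s := s) hqs hne (i := j) (j := i) hj (by omega) h
  omega

theorem dth_succ {p s : ℕ} [Fact p.Prime] [CharP κ p] (hqs : q = p ^ s) (j : ℕ) :
    dth q θ (j + 1) = (th q θ (j + 1) - θ) * dth q θ j ^ q := by
  rw [dth, Finset.prod_range_succ', dth, ← Finset.prod_pow, mul_comm]
  congr 1
  · rw [pow_zero, pow_one]; rfl
  · refine Finset.prod_congr rfl fun i _ => ?_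
    rw [sub_pow_q (p := p) (s := s) hqs, ← pow_mul, ← pow_mul, ← pow_succ, ← pow_succ]

/-- `a_j = c_j / D_j` -/
noncomputable def aa (q d : ℕ) (θ : κ) (j : ℕ) : κ := cc q d θ j / dth q θ j

theorem aa_pow {p s : ℕ} [Fact p.Prime] [CharP κ p] (hqs : q = p ^ s) (hθ : θ ^ q ^ d = θ)
    (hne : ∀ i, 0 < i → i < d → θ ^ q ^ i ≠ θ) {j : ℕ} (hj : j + 1 < d) :
    aa q d θ j ^ q = (th q θ (j + 1) - θ) * aa q d θ (j + 1) := by
  have h1 : th q θ (j + 1) - θ ≠ 0 := sub_ne_zero.2 (hne (j + 1) (by omega) hj)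
  have h2 := dth_ne_zero (p := p) (s := s) hqs hne (j := j) (by omega)
  rw [aa, aa, div_pow, cc_pow (p := p) (s := s) hqs hθ, dth_succ (p := p) (s := s) hqs]
  field_simp

theorem aa_ne_zero {p s : ℕ} [Fact p.Prime] [CharP κ p] (hqs : q = p ^ s)
    (hne : ∀ i, 0 < i → i < d → θ ^ q ^ i ≠ θ) {j : ℕ} (hj : j < d) : aa q d θ j ≠ 0 :=
  div_ne_zero (cc_ne_zero j) (dth_ne_zero (p := p) (s := s) hqs hne hj)

/-- `β_n` -/
noncomputable def bb (q d : ℕ) (θ : κ) (n : ℕ) : κ := PowerSeries.coeff n (eser q d θ)⁻¹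

theorem constCoeff_eser (hq : 2 ≤ q) (hd : 0 < d) :
    PowerSeries.constantCoeff (eser q d θ) = 1 := by
  obtain ⟨e, rfl⟩ : ∃ e, d = e + 1 := ⟨d - 1, by omega⟩
  rw [eser, Finset.sum_range_succ', map_add, map_sum, Finset.sum_eq_zero]
  · simp [dth]
  · intro j _
    have : q ^ (j + 1) - 1 ≠ 0 := by
      have : 2 ≤ q ^ (j + 1) := le_trans hq (Nat.le_self_pow (by omega) q)
      omega
    simp [this]

theorem bb_zero (hq : 2 ≤ q) (hd : 0 < d) : bb q d θ 0 = 1 := by
  rw [bb, PowerSeries.coeff_zero_eq_constantCoeff_apply, PowerSeries.constantCoeff_inv,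
    constCoeff_eser hq hd, inv_one]

theorem bb_rec (hq : 2 ≤ q) (hd : 0 < d) (n : ℕ) (hn : 1 ≤ n) :
    ∑ j ∈ Finset.range d, (dth q θ j)⁻¹ *
      (if q ^ j - 1 ≤ n then bb q d θ (n - (q ^ j - 1)) else 0) = 0 := by
  have h1 : eser q d θ * (eser q d θ)⁻¹ = 1 :=
    PowerSeries.mul_inv_cancel _ (by rw [constCoeff_eser hq hd]; exact one_ne_zero)
  have h2 := congrArg (PowerSeries.coeff n) h1
  rw [PowerSeries.coeff_one, if_neg (by omega)] at h2
  refine Eq.trans ?_ h2
  have h3 : eser q d θ * (eser q d θ)⁻¹ = ∑ j ∈ Finset.range d,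
      PowerSeries.C (dth q θ j)⁻¹ * PowerSeries.X ^ (q ^ j - 1) * (eser q d θ)⁻¹ := by
    conv_lhs => rw [eser, Finset.sum_mul]
    rfl
  rw [h3, map_sum]
  refine Finset.sum_congr rfl fun j _ => ?_
  rw [mul_assoc, PowerSeries.coeff_C_mul, PowerSeries.coeff_X_pow_mul']
  rfl

end G

end Pool.Agent.R664.GK
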