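import Pool.Agent.R664.GK.A3

/-!
# Task A, part 4: the determinants are Bernoulli-Carlitz numbers
-/

set_option autoImplicit false

open Polynomial
open Pool.Agent.R360.GK (U dth eser Qk)

namespace Pool.Agent.R664.GK

section Main

variable {κ : Type} [Field κ] {q d : ℕ} {θ : κ}

/-- `P_m` -/
noncomputable def Pm (q d : ℕ) (θ : κ) (m : ℕ → ℕ) : κ[X] :=
  ∏ j ∈ Finset.range d, (X - C (th q θ j)) ^ m j

/-- `N(m)` -/
def Nm (q d : ℕ) (m : ℕ → ℕ) : ℕ := ∑ j ∈ Finset.range d, m j * q ^ j

/-- `|m|` -/
def Sm (d : ℕ) (m : ℕ → ℕ) : ℕ := ∑ j ∈ Finset.range d, m j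

/-- `β_{q ^ d - N}` -/
noncomputable def bt (q d : ℕ) (θ : κ) (N : ℕ) : κ := if N ≤ q ^ d then bb q d θ (q ^ d - N) else 0

/-- the right hand side -/
noncomputable def GG (q d : ℕ) (θ : κ) (m : ℕ → ℕ) : κ :=
  (aa q d θ (d - 1) ^ q)⁻¹ * (∏ j ∈ Finset.range d, aa q d θ j ^ m j) * bt q d θ (Nm q d m)

theorem Pm_monic (m : ℕ → ℕ) : (Pm q d θ m).Monic :=
  monic_prod_of_monic _ _ fun j _ => (monic_X_sub_C (th q θ j)).pow (m j)

theorem Pm_natDegree (m : ℕ → ℕ) : (Pm q d θ m).natDegree = Sm d m := by
  rw [Pm, natDegree_prod_of_monic _ _ fun j _ => (monic_X_sub_C (th q θ j)).pow (m j), Sm]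
  refine Finset.sum_congr rfl fun j _ => ?_
  rw [(monic_X_sub_C _).natDegree_pow, natDegree_X_sub_C, mul_one]

theorem Pm_single (m : ℕ → ℕ) {i : ℕ} (t : ℕ) (hi : i < d) :
    Pm q d θ (m + sg i t) = (X - C (th q θ i)) ^ t * Pm q d θ m := by
  rw [Pm, prod_pow_single (fun j => X - C (th q θ j)) m t hi, mul_comm]
  rfl

theorem Nm_single (m : ℕ → ℕ) {i : ℕ} (t : ℕ) (hi : i < d) :
    Nm q d (m + sg i t) = Nm q d m + t * q ^ i := sum_mul_single (fun j => q ^ j) m t hi

theorem Sm_single (m : ℕ → ℕ) {i : ℕ} (t : ℕ) (hi : i < d) :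
    Sm d (m + sg i t) = Sm d m + t := sum_single m t hi

theorem aprod_single (m : ℕ → ℕ) {i : ℕ} (t : ℕ) (hi : i < d) :
    ∏ j ∈ Finset.range d, aa q d θ j ^ (m + sg i t) j =
      (∏ j ∈ Finset.range d, aa q d θ j ^ m j) * aa q d θ i ^ t :=
  prod_pow_single (fun j => aa q d θ j) m t hi

variable {p s : ℕ} [Fact p.Prime] [CharP κ p]

theorem FF_a (hqs : q = p ^ s) (hq : 0 < q) (hne : ∀ i, 0 < i → i < d → θ ^ q ^ i ≠ θ)
    (m : ℕ → ℕ) (r : ℕ) (hrd : r + 2 ≤ d) :
    ∑ j ∈ Finset.range d, detA (opA hq θ (Pm q d θ (m + sg j 1))) r / cc q d θ j = 0 := by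
  have h := detA_a hq θ (Pm q d θ m) r d hrd (th q θ) (by
    intro i hi j hj hij
    exact th_inj (p := p) (s := s) hqs hne (by simpa using hi) (by simpa using hj) hij)
  rw [← h]
  refine Finset.sum_congr rfl fun j hj => ?_
  have hj' := Finset.mem_range.1 hj
  rw [Pm_single m 1 hj', pow_one, cc_eq (p := p) (s := s) hqs hne hj']

theorem GG_a (hq : 2 ≤ q) (hd : 0 < d) (m : ℕ → ℕ) (hN : Nm q d m ≠ q ^ d - 1) :
    ∑ j ∈ Finset.range d, GG q d θ (m + sg j 1) / cc q d θ j = 0 := by
  have h1 : ∀ j ∈ Finset.range d, GG q d θ (m + sg j 1) / cc q d θ j =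
      ((aa q d θ (d - 1) ^ q)⁻¹ * (∏ j ∈ Finset.range d, aa q d θ j ^ m j)) *
        ((dth q θ j)⁻¹ * bt q d θ (Nm q d m + q ^ j)) := by
    intro j hj
    have hj' := Finset.mem_range.1 hj
    rw [GG, aprod_single m 1 hj', Nm_single m 1 hj', one_mul, pow_one]
    have h2 := cc_ne_zero (q := q) (d := d) (θ := θ) j
    have h3 : aa q d θ j / cc q d θ j = (dth q θ j)⁻¹ := by
      rw [aa, div_div, mul_comm, ← div_div, div_self h2, one_div]
    rw [← h3]
    ring
  rw [Finset.sum_congr rfl h1, ← Finset.mul_sum]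
  have h4 : ∑ j ∈ Finset.range d, (dth q θ j)⁻¹ * bt q d θ (Nm q d m + q ^ j) = 0 := by
    rcases Nat.lt_or_ge (Nm q d m) (q ^ d) with hlt | hge
    · have h5 := bb_rec (θ := θ) hq hd (q ^ d - Nm q d m - 1) (by omega)
      rw [← h5]
      refine Finset.sum_congr rfl fun j _ => ?_
      congr 1
      have hpos : 1 ≤ q ^ j := Nat.one_le_pow _ _ (by omega)
      rw [bt]
      by_cases hc : Nm q d m + q ^ j ≤ q ^ d
      · rw [if_pos hc, if_pos (by omega)]
        congr 1
        omega
      · rw [if_neg hc, if_neg (by omega)]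
    · refine Finset.sum_eq_zero fun j _ => ?_
      have hpos : 1 ≤ q ^ j := Nat.one_le_pow _ _ (by omega)
      rw [bt, if_neg (by omega), mul_zero]
  rw [h4, mul_zero]

theorem FF_b (hqs : q = p ^ s) (hq : 0 < q) (m : ℕ → ℕ) (r j : ℕ) (hj : j < d)
    (hS : Sm d m = (q - 1) * (r + 1)) :
    detA (opA hq θ (Pm q d θ (m + sg j q))) (r + 1) =
      (th q θ (j + 1) - θ) * detA (opA hq θ ((X - C (th q θ (j + 1))) * Pm q d θ m)) r := by
  rw [Pm_single m q hj, detA_b (p := p) (s := s) hqs hq θ _ _ (Pm_monic m) r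
    (by rw [Pm_natDegree, hS]), ← th_succ]

theorem GG_b (hqs : q = p ^ s) (hθ : θ ^ q ^ d = θ) (hne : ∀ i, 0 < i → i < d → θ ^ q ^ i ≠ θ)
    (m : ℕ → ℕ) (j : ℕ) (hj : j + 1 < d) :
    GG q d θ (m + sg j q) = (th q θ (j + 1) - θ) * GG q d θ (m + sg (j + 1) 1) := by
  rw [GG, GG, aprod_single m q (by omega), aprod_single m 1 hj, Nm_single m q (by omega),
    Nm_single m 1 hj, pow_one, aa_pow (p := p) (s := s) hqs hθ hne hj]
  have h1 : q * q ^ j = 1 * q ^ (j + 1) := by ring
  rw [h1]
  ring

theorem Nm_pos (hq : 0 < q) (m : ℕ → ℕ) (h : 0 < Sm d m) : 0 < Nm q d m := by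
  refine lt_of_lt_of_le h (Finset.sum_le_sum fun j _ => ?_)
  exact Nat.le_mul_of_pos_right _ (pow_pos hq j)

theorem GG_b' (hq : 0 < q) (m : ℕ → ℕ) (j : ℕ) (hj : j + 1 = d) (hS : 0 < Sm d m) :
    GG q d θ (m + sg j q) = 0 := by
  have h1 := Nm_pos hq m hS
  have h2 : q * q ^ j = q ^ d := by rw [← hj]; ring
  rw [GG, Nm_single m q (by omega), h2, bt, if_neg (by omega), mul_zero]

theorem GG_base (hqs : q = p ^ s) (hq : 2 ≤ q) (hd : 0 < d)
    (hne : ∀ i, 0 < i → i < d → θ ^ q ^ i ≠ θ) (m : ℕ → ℕ)
    (hm : ∀ j < d - 1, m j = 0) (hm' : m (d - 1) = q) : GG q d θ m = 1 := by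
  obtain ⟨e, rfl⟩ : ∃ e, d = e + 1 := ⟨d - 1, by omega⟩
  simp only [Nat.add_sub_cancel] at hm hm'
  have h1 : Nm q (e + 1) m = q ^ (e + 1) := by
    rw [Nm, Finset.sum_range_succ, Finset.sum_eq_zero, hm']
    · ring
    · intro j hj
      rw [hm j (Finset.mem_range.1 hj), zero_mul]
  have h2 : ∏ j ∈ Finset.range (e + 1), aa q (e + 1) θ j ^ m j = aa q (e + 1) θ e ^ q := by
    rw [Finset.prod_range_succ, Finset.prod_eq_one, hm', one_mul]
    intro j hj
    rw [hm j (Finset.mem_range.1 hj), pow_zero]
  rw [GG, h1, h2, bt, if_pos le_rfl, Nat.sub_self, bb_zero hq hd, mul_one, Nat.add_sub_cancel]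
  exact inv_mul_cancel₀ (pow_ne_zero _ (aa_ne_zero (p := p) (s := s) hqs hne (by omega)))

/-- **The determinants are Bernoulli-Carlitz numbers.** -/
theorem main_induction (hqs : q = p ^ s) (hq : 0 < q) (hq2 : 2 ≤ q) (hd : 0 < d)
    (hθ : θ ^ q ^ d = θ) (hne : ∀ i, 0 < i → i < d → θ ^ q ^ i ≠ θ) :
    ∀ (n r : ℕ) (m : ℕ → ℕ), Sm d m = (q - 1) * (r + 1) + 1 → r + 1 ≤ d →
      ((q - 1) * d + 1) * q ^ d + 1 ≤ Nm q d m + n →
      detA (opA hq θ (Pm q d θ m)) r = GG q d θ m := by
  intro n
  induction n with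
  | zero =>
    intro r m hS hr hN
    exfalso
    have h1 : Nm q d m ≤ Sm d m * q ^ d := by
      rw [Nm, Sm, Finset.sum_mul]
      refine Finset.sum_le_sum fun j hj => ?_
      exact Nat.mul_le_mul_left _ (Nat.pow_le_pow_right hq (Finset.mem_range.1 hj).le)
    have h2 : Sm d m * q ^ d ≤ ((q - 1) * d + 1) * q ^ d := by
      refine Nat.mul_le_mul_right _ ?_
      rw [hS]
      have := Nat.mul_le_mul_left (q - 1) hr
      omega
    omega
  | succ n IH =>
    -- going up
    have up : ∀ (l r : ℕ) (m : ℕ → ℕ), (∀ j < l, m j = 0) → 1 ≤ m l → r + l + 2 ≤ d →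
        Sm d m = (q - 1) * (r + 1) + 1 →
        ((q - 1) * d + 1) * q ^ d + 1 ≤ Nm q d m + (n + 1) →
        detA (opA hq θ (Pm q d θ m)) r = GG q d θ m := by
      intro l
      induction l with
      | zero =>
        intro r m _ h1 h2 hS hN
        obtain ⟨m', rfl⟩ := exists_sub m 0 1 h1
        rw [Sm_single m' 1 hd] at hS
        rw [Nm_single m' 1 hd] at hN
        have hS' : Sm d m' = (q - 1) * (r + 1) := by omega
        have hN' : Nm q d m' ≠ q ^ d - 1 := by
          intro h3
          have h4 := digit_sum q hq2 d m' h3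
          have h5 : (q - 1) * (r + 1) < (q - 1) * d :=
            Nat.mul_lt_mul_of_pos_left (by omega) (by omega)
          rw [← hS'] at h5
          exact absurd h4 (not_le.2 h5)
        have hF := FF_a (p := p) (s := s) hqs hq hne m' r (by omega)
        have hG := GG_a (θ := θ) hq2 hd m' hN'
        obtain ⟨e, rfl⟩ : ∃ e, d = e + 1 := ⟨d - 1, by omega⟩
        rw [Finset.sum_range_succ'] at hF hG
        have h6 : ∑ j ∈ Finset.range e, detA (opA hq θ (Pm q (e + 1) θ (m' + sg (j + 1) 1))) r /
            cc q (e + 1) θ (j + 1) =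
            ∑ j ∈ Finset.range e, GG q (e + 1) θ (m' + sg (j + 1) 1) / cc q (e + 1) θ (j + 1) := by
          refine Finset.sum_congr rfl fun j hj => ?_
          have hj' := Finset.mem_range.1 hj
          rw [IH r (m' + sg (j + 1) 1) (by rw [Sm_single m' 1 (by omega)]; exact hS) (by omega)]
          rw [Nm_single m' 1 (by omega)]
          have : 2 ≤ q ^ (j + 1) := le_trans hq2 (Nat.le_self_pow (by omega) q)
          simp only [pow_zero, one_mul, mul_one] at hN ⊢
          omega
        rw [h6] at hF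
        have h7 := add_left_cancel (hF.trans hG.symm)
        exact (div_left_inj' (cc_ne_zero 0)).1 h7
      | succ l ihl =>
        intro r m h0 h1 h2 hS hN
        obtain ⟨m', rfl⟩ := exists_sub m (l + 1) 1 h1
        rw [Sm_single m' 1 (by omega)] at hS
        rw [Nm_single m' 1 (by omega)] at hN
        have hS' : Sm d m' = (q - 1) * (r + 1) := by omega
        have hF := FF_b (θ := θ) (p := p) (s := s) hqs hq m' r l (by omega) hS'
        have hG := GG_b (p := p) (s := s) hqs hθ hne m' l (by omega)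
        have h3 : detA (opA hq θ (Pm q d θ (m' + sg l q))) (r + 1) =
            GG q d θ (m' + sg l q) := by
          apply ihl
          · intro j hj
            have h4 := h0 j (by omega)
            have h5 : (m' + sg (l + 1) 1) j = m' j := by
              rw [Pi.add_apply, sg, Pi.single_eq_of_ne (by omega), add_zero]
            rw [Pi.add_apply, sg, Pi.single_eq_of_ne (by omega), add_zero, ← h5, h4]
          · rw [Pi.add_apply, sg, Pi.single_eq_same]
            omega
          · omega
          · rw [Sm_single m' q (by omega), hS']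
            obtain ⟨q', rfl⟩ : ∃ q', q = q' + 1 := ⟨q - 1, by omega⟩
            simp only [Nat.add_sub_cancel]
            ring
          · rw [Nm_single m' q (by omega)]
            have : q * q ^ l = 1 * q ^ (l + 1) := by ring
            rw [this]
            exact hN
        have h4 : th q θ (l + 1) - θ ≠ 0 := sub_ne_zero.2 (hne (l + 1) (by omega) (by omega))
        rw [hF, hG] at h3
        have h5 := mul_left_cancel₀ h4 h3
        rw [Pm_single m' 1 (by omega), pow_one]
        exact h5
    intro r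
    induction r with
    | zero =>
      intro m hS hr hN
      -- the minimal index
      have hex : ∃ l, 1 ≤ m l ∧ l < d := by
        by_contra hcon
        push Not at hcon
        have : Sm d m = 0 := by
          rw [Sm]
          refine Finset.sum_eq_zero fun j hj => ?_
          by_contra h
          exact absurd (Finset.mem_range.1 hj) (not_lt.2 (hcon j (by omega)))
        omega
      classical
      let l := Nat.find hex
      obtain ⟨hl1, hl2⟩ : 1 ≤ m l ∧ l < d := Nat.find_spec hex
      have hl0 : ∀ j < l, m j = 0 := by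
        intro j hj
        by_contra h
        exact Nat.find_min hex hj ⟨by omega, by omega⟩
      by_cases hld : l + 2 ≤ d
      · exact up l 0 m hl0 hl1 (by omega) hS hN
      · have hl3 : l = d - 1 := by omega
        have hm' : m (d - 1) = q := by
          have h1 : Sm d m = m (d - 1) := by
            rw [Sm, Finset.sum_eq_single (d - 1)]
            · intro j hj hj'
              exact hl0 j (by have := Finset.mem_range.1 hj; omega)
            · intro h
              exact absurd (Finset.mem_range.2 (by omega)) h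
          rw [← h1, hS]
          omega
        rw [GG_base (p := p) (s := s) hqs hq2 hd hne m (fun j hj => hl0 j (by omega)) hm', detA]
        exact Matrix.det_isEmpty
    | succ r ihr =>
      intro m hS hr hN
      by_cases hc : ∃ j < d, q ≤ m j
      · obtain ⟨j, hj, hqj⟩ := hc
        obtain ⟨m', rfl⟩ := exists_sub m j q hqj
        rw [Sm_single m' q hj] at hS
        rw [Nm_single m' q hj] at hN
        have hS' : Sm d m' = (q - 1) * (r + 1) := by
          obtain ⟨q', rfl⟩ : ∃ q', q = q' + 1 := ⟨q - 1, by omega⟩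
          simp only [Nat.add_sub_cancel] at hS ⊢
          have : q' * (r + 1 + 1) = q' * (r + 1) + q' := by ring
          omega
        rw [FF_b (θ := θ) (p := p) (s := s) hqs hq m' r j hj hS']
        rcases Nat.lt_or_ge (j + 1) d with hj1 | hj1
        · rw [GG_b (p := p) (s := s) hqs hθ hne m' j hj1]
          congr 1
          have h1 := ihr (m' + sg (j + 1) 1) (by rw [Sm_single m' 1 hj1, hS']) (by omega) (by
            rw [Nm_single m' 1 hj1]
            have : q * q ^ j = 1 * q ^ (j + 1) := by ring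
            rw [← this]
            exact hN)
          rw [Pm_single m' 1 hj1, pow_one] at h1
          exact h1
        · have hj2 : j + 1 = d := by omega
          rw [GG_b' hq m' j hj2 (by rw [hS']; exact Nat.mul_pos (by omega) (by omega)), hj2,
            th_d hθ, th_zero, sub_self, zero_mul]
      · push Not at hc
        have hex : ∃ l, 1 ≤ m l ∧ l < d := by
          by_contra hcon
          push Not at hcon
          have : Sm d m = 0 := by
            rw [Sm]
            refine Finset.sum_eq_zero fun j hj => ?_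
            by_contra h
            exact absurd (Finset.mem_range.1 hj) (not_lt.2 (hcon j (by omega)))
          omega
        classical
        let l := Nat.find hex
        obtain ⟨hl1, hl2⟩ : 1 ≤ m l ∧ l < d := Nat.find_spec hex
        have hl0 : ∀ j < l, m j = 0 := by
          intro j hj
          by_contra h
          exact Nat.find_min hex hj ⟨by omega, by omega⟩
        refine up l (r + 1) m hl0 hl1 ?_ hS hN
        -- the count
        have h1 : Sm d m ≤ (d - l) * (q - 1) := by
          have h2 : Sm d m = ∑ j ∈ Finset.range (d - l), m (l + j) := by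
            have h3 : d = l + (d - l) := by omega
            rw [Sm]
            conv_lhs => rw [h3]
            rw [Finset.sum_range_add, Finset.sum_eq_zero, zero_add]
            intro j hj
            exact hl0 j (Finset.mem_range.1 hj)
          rw [h2]
          refine le_trans (Finset.sum_le_card_nsmul _ _ (q - 1) fun j hj => ?_) ?_
          · have := hc (l + j) (by have := Finset.mem_range.1 hj; omega)
            omega
          · simp
        rw [hS] at h1
        have h4 : (q - 1) * (r + 1 + 1) < (q - 1) * (d - l) := by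
          rw [mul_comm (q - 1) (d - l)]
          omega
        have h5 := lt_of_mul_lt_mul_left h4 (Nat.zero_le _)
        omega

end Main

end Pool.Agent.R664.GK
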