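import Pool.Agent.R360.GK.Tasks

/-!
# Task G: from an equivariant map `κ → M` to an element of `W(κ) ⊗ M`
-/

set_option autoImplicit false

open scoped TensorProduct

namespace Pool.Agent.R664.GK

section W

variable (p : ℕ) [hp : Fact p.Prime] (κ : Type) [Field κ] [CharP κ p]

theorem natCast_W_ne_zero {n : ℕ} (hn : n ≠ 0) : (n : WittVector p κ) ≠ 0 := by
  obtain ⟨a, m, hm, rfl⟩ := Nat.exists_eq_pow_mul_and_not_dvd hn p hp.out.ne_one
  push_cast
  refine mul_ne_zero (pow_ne_zero _ (WittVector.p_nonzero p κ)) ?_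
  intro h
  have h2 := congrArg (WittVector.constantCoeff (p := p) (R := κ)) h
  rw [map_natCast, map_zero] at h2
  exact hm ((CharP.cast_eq_zero_iff κ p m).1 h2)

instance charZeroW : CharZero (WittVector p κ) :=
  charZero_of_inj_zero fun n hn => by
    by_contra h
    exact natCast_W_ne_zero p κ h hn

instance flatW : Module.Flat ℤ (WittVector p κ) := inferInstance

variable {p κ}

theorem tmul_congr [PerfectRing κ p] {N : Type} [AddCommGroup N] {w w' : WittVector p κ} {b : N}
    (hb : p • b = 0) (h : WittVector.constantCoeff w = WittVector.constantCoeff w') :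
    w ⊗ₜ[ℤ] b = w' ⊗ₜ[ℤ] b := by
  have h1 : w - w' ∈ Ideal.span {(p : WittVector p κ)} := by
    rw [WittVector.mem_span_p_iff_coeff_zero_eq_zero]
    have : WittVector.constantCoeff (w - w') = 0 := by rw [map_sub, h, sub_self]
    exact this
  obtain ⟨u, hu⟩ := Ideal.mem_span_singleton.1 h1
  have : (w - w') ⊗ₜ[ℤ] b = 0 := by
    have h3 : (p : WittVector p κ) * u = (p : ℤ) • u := by
      rw [zsmul_eq_mul]; push_cast; rfl
    rw [hu, h3, TensorProduct.smul_tmul]
    have h4 : (p : ℤ) • b = 0 := by rw [natCast_zsmul]; exact hb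
    rw [h4, TensorProduct.tmul_zero]
  rw [TensorProduct.sub_tmul] at this
  exact sub_eq_zero.1 this

omit [CharP κ p] in
theorem lTensor_smul' {N N' : Type} [AddCommGroup N] [AddCommGroup N'] (f : N →ₗ[ℤ] N')
    (r : WittVector p κ) (t : WittVector p κ ⊗[ℤ] N) :
    LinearMap.lTensor (WittVector p κ) f (r • t) = r • LinearMap.lTensor (WittVector p κ) f t := by
  induction t with
  | zero => simp
  | tmul w e => simp [TensorProduct.smul_tmul']
  | add x y hx hy => rw [smul_add, map_add, map_add, hx, hy, smul_add]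

theorem exists_addHom_zmod' (p : ℕ) [Fact p.Prime] {N : Type} [AddCommGroup N]
    [Module (ZMod p) N] {n0 : N} (h : n0 ≠ 0) : ∃ φ : N →+ ZMod p, φ n0 ≠ 0 := by
  by_contra hcon
  push Not at hcon
  have h2 := (Module.forall_dual_apply_eq_zero_iff (ZMod p) n0).1 fun φ => hcon φ.toAddMonoidHom
  exact h h2

theorem exists_addHom_zmod (p : ℕ) [Fact p.Prime] {N : Type} [AddCommGroup N]
    (hN : ∀ n : N, p • n = 0) {n0 : N} (h : n0 ≠ 0) : ∃ φ : N →+ ZMod p, φ n0 ≠ 0 :=
  @exists_addHom_zmod' p _ N _ (AddCommGroup.zmodModule hN) n0 h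

end W

theorem taskG : Pool.Agent.R360.GK.TaskG := by
  intro p hp κ _ _ _ M _ θ hθ
  classical
  have : PerfectRing κ p := inferInstance
  let : Algebra (ZMod p) κ := ZMod.algebra κ p
  have : Module.Finite (ZMod p) κ := Module.Finite.of_finite
  have : Algebra.IsSeparable (ZMod p) κ := inferInstance
  set ι := Module.Free.ChooseBasisIndex (ZMod p) κ with hι
  let b : Module.Basis ι (ZMod p) κ := Module.Free.chooseBasis (ZMod p) κ
  let b' := b.traceDual
  have hpκ : ∀ x : κ, p • x = 0 := fun x => by
    rw [nsmul_eq_mul, CharP.cast_eq_zero, zero_mul]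
  let y : WittVector p κ ⊗[ℤ] κ := ∑ j, WittVector.teichmuller p (b j) ⊗ₜ[ℤ] b' j
  have hy : ∀ c : κ, LinearMap.lTensor (WittVector p κ) (LinearMap.mulLeft ℤ c) y =
      WittVector.teichmuller p c • y := by
    intro c
    have key : ∀ j, WittVector.teichmuller p (b j) ⊗ₜ[ℤ] (c * b' j) =
        ∑ i, (((b'.repr (c * b' j) i).val : ℤ) • WittVector.teichmuller p (b j)) ⊗ₜ[ℤ] b' i := by
      intro j
      conv_lhs => rw [← b'.sum_repr (c * b' j)]
      rw [TensorProduct.tmul_sum]
      refine Finset.sum_congr rfl fun i _ => ?_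
      rw [TensorProduct.smul_tmul]
      congr 1
      conv_lhs => rw [← ZMod.natCast_zmod_val (b'.repr (c * b' j) i)]
      rw [Nat.cast_smul_eq_nsmul, natCast_zsmul]
    simp only [y, map_sum, LinearMap.lTensor_tmul, LinearMap.mulLeft_apply, key]
    rw [Finset.sum_comm, Finset.smul_sum]
    refine Finset.sum_congr rfl fun i _ => ?_
    rw [← TensorProduct.sum_tmul, TensorProduct.smul_tmul', smul_eq_mul]
    apply tmul_congr (hpκ _)
    rw [map_sum, map_mul]
    have h0 : ∀ a : κ, WittVector.constantCoeff (WittVector.teichmuller p a) = a := fun a =>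
      WittVector.teichmuller_coeff_zero p a
    rw [h0, h0]
    have h1 : c * b i = ∑ j, b.repr (c * b i) j • b j := (b.sum_repr _).symm
    rw [h1]
    refine Finset.sum_congr rfl fun j _ => ?_
    rw [map_zsmul, h0, natCast_zsmul, ← Nat.cast_smul_eq_nsmul (ZMod p), ZMod.natCast_zmod_val]
    congr 1
    have e1 : b'.repr (c * b' j) i = Algebra.trace (ZMod p) κ ((c * b' j) * b i) := by
      simp only [b', Module.Basis.traceDual_repr_apply, Algebra.traceForm_apply]
    have e2 : b.repr (c * b i) j = Algebra.trace (ZMod p) κ ((c * b i) * b' j) := by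
      have h5 := Module.Basis.traceDual_repr_apply b.traceDual (c * b i) j
      rw [Module.Basis.traceDual_traceDual, Algebra.traceForm_apply] at h5
      exact h5
    rw [e1, e2]
    congr 1
    ring
  refine ⟨LinearMap.lTensor (WittVector p κ) θ.toIntLinearMap y, ?_, ?_⟩
  · intro h0
    -- the range of θ
    let N := LinearMap.range θ.toIntLinearMap
    have hN : ∀ n : N, p • n = 0 := by
      rintro ⟨_, x, rfl⟩
      ext
      simp only [AddSubmonoidClass.coe_nsmul, AddMonoidHom.coe_toIntLinearMap, ZeroMemClass.coe_zero]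
      rw [← map_nsmul, hpκ, map_zero]
    obtain ⟨x0, hx0⟩ : ∃ x, θ x ≠ 0 := by
      by_contra hcon
      push Not at hcon
      exact hθ (AddMonoidHom.ext hcon)
    let θ' : κ →ₗ[ℤ] N := θ.toIntLinearMap.rangeRestrict
    have hx0' : θ' x0 ≠ 0 := by
      intro h
      exact hx0 (congrArg Subtype.val h)
    obtain ⟨φ, hφ⟩ := exists_addHom_zmod p hN hx0'
    have h1 : LinearMap.lTensor (WittVector p κ) θ' y = 0 := by
      have hinj : Function.Injective (LinearMap.lTensor (WittVector p κ) N.subtype) :=
        Module.Flat.lTensor_preserves_injective_linearMap _ N.injective_subtype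
      apply hinj
      rw [map_zero, ← h0, ← LinearMap.comp_apply, ← LinearMap.lTensor_comp]
      rfl
    let Λ : WittVector p κ ⊗[ℤ] N →ₗ[ℤ] κ := TensorProduct.lift
      (LinearMap.mk₂ ℤ (fun w n => φ n • WittVector.constantCoeff w)
        (fun w w' n => by rw [map_add, smul_add])
        (fun c w n => by rw [map_zsmul, smul_comm])
        (fun w n n' => by rw [map_add, add_smul])
        (fun c w n => by rw [map_zsmul, smul_assoc]))
    have h2 : Λ (LinearMap.lTensor (WittVector p κ) θ' y) = 0 := by rw [h1, map_zero]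
    have h0' : ∀ a : κ, WittVector.constantCoeff (WittVector.teichmuller p a) = a := fun a =>
      WittVector.teichmuller_coeff_zero p a
    have h2' : Λ (LinearMap.lTensor (WittVector p κ) θ' y) = ∑ j, φ (θ' (b' j)) • b j := by
      simp only [y]
      rw [map_sum, map_sum]
      refine Finset.sum_congr rfl fun j _ => ?_
      rw [LinearMap.lTensor_tmul]
      change φ (θ' (b' j)) • WittVector.constantCoeff (WittVector.teichmuller p (b j)) = _
      rw [h0']
    rw [h2'] at h2
    have h3 : ∀ i, φ (θ' (b' i)) = 0 := by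
      have := Fintype.linearIndependent_iff.1 b.linearIndependent _ h2
      exact this
    let ψ : κ →ₗ[ZMod p] ZMod p := (φ.comp θ'.toAddMonoidHom).toZModLinearMap p
    have h4 : ψ = 0 := by
      apply b'.ext
      intro i
      exact h3 i
    exact hφ (LinearMap.congr_fun h4 x0)
  · intro σ c hσ
    rw [← LinearMap.comp_apply, ← LinearMap.lTensor_comp]
    have h1 : σ ∘ₗ θ.toIntLinearMap = θ.toIntLinearMap ∘ₗ LinearMap.mulLeft ℤ c := by
      ext x
      exact hσ x
    rw [h1, LinearMap.lTensor_comp, LinearMap.comp_apply, hy, lTensor_smul']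

end Pool.Agent.R664.GK
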